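import Pool.Agent.Q241.NN.B

/-! # Comparison of the two normalisations -/

set_option autoImplicit false

open MeasureTheory Filter Topology Set

namespace Q241.NN

open Pool.Agent.Y744 Pool.Agent.Y763.AH
open Pool.Agent.Y749.Rig (nT nT_pos ZZ mm mem_ZZ zs_im_pos one_lt_log)
open SG (ord NZ)

lemma ord_lim : Tendsto (fun N : ℕ => ord N) atTop atTop := by
  rw [tendsto_atTop]
  intro b
  filter_upwards [eventually_gt_atTop (NZ b), eventually_ge_atTop 1] with N hN h1
  by_contra hc
  push Not at hc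
  have := (SG.ord_le_iff h1 b).1 hc.le
  omega

lemma N_le {N : ℕ} (h1 : 1 ≤ N) : N ≤ NZ (ord N) := (SG.ord_le_iff h1 _).1 le_rfl

lemma lt_N {N : ℕ} (h1 : 1 ≤ N) : NZ (ord N - 1) < N := by
  by_contra hc
  push Not at hc
  have := (SG.ord_le_iff h1 (ord N - 1)).2 hc
  linarith

lemma nT_ratio : Tendsto (fun T => nT (T - 1) / nT T) atTop (𝓝 1) := by
  have h1 : Tendsto (fun T : ℝ => (1 - 1 / T) * (1 - Real.log 2 / Real.log T)) atTop
      (𝓝 ((1 - 0) * (1 - 0))) := by
    refine Tendsto.mul (tendsto_const_nhds.sub ?_) (tendsto_const_nhds.sub ?_)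
    · exact Tendsto.div_atTop tendsto_const_nhds tendsto_id
    · exact Tendsto.div_atTop tendsto_const_nhds Real.tendsto_log_atTop
  simp only [sub_zero, mul_one] at h1
  refine tendsto_of_tendsto_of_tendsto_of_le_of_le' h1 tendsto_const_nhds ?_ ?_
  · filter_upwards [eventually_ge_atTop 11] with T hT
    have hL := one_lt_log (show 3 ≤ T by linarith)
    have hpi := Real.pi_pos
    have hl : Real.log T - Real.log 2 ≤ Real.log (T - 1) := by
      rw [← Real.log_div (by linarith) (by norm_num)]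
      exact Real.log_le_log (by linarith) (by linarith)
    unfold nT
    have e : (T - 1) * Real.log (T - 1) / (2 * Real.pi) / (T * Real.log T / (2 * Real.pi)) =
        (1 - 1 / T) * (Real.log (T - 1) / Real.log T) := by
      field_simp
    rw [e]
    refine mul_le_mul_of_nonneg_left ?_ ?_
    · have e2 : 1 - Real.log 2 / Real.log T = (Real.log T - Real.log 2) / Real.log T := by
        field_simp
      rw [e2]
      exact div_le_div_of_nonneg_right hl (by linarith)
    · have : 1 / T ≤ 1 := by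
        rw [div_le_one (by linarith)]
        linarith
      linarith
  · filter_upwards [eventually_ge_atTop 11] with T hT
    have h2 := nT_pos (T := T) (by linarith)
    rw [div_le_one h2]
    unfold nT
    have hpi := Real.pi_pos
    have hL := one_lt_log (show 3 ≤ T by linarith)
    have hl : Real.log (T - 1) ≤ Real.log T := Real.log_le_log (by linarith) (by linarith)
    refine div_le_div_of_nonneg_right ?_ (by positivity)
    calc (T - 1) * Real.log (T - 1) ≤ (T - 1) * Real.log T :=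
          mul_le_mul_of_nonneg_left hl (by linarith)
      _ ≤ T * Real.log T := by nlinarith

lemma NZ_ord : Tendsto (fun N : ℕ => (NZ (ord N) : ℝ) / nT (ord N)) atTop (𝓝 1) :=
  NZ_lim.comp ord_lim

lemma N_ratio : Tendsto (fun N : ℕ => (N : ℝ) / nT (ord N)) atTop (𝓝 1) := by
  have h1 : Tendsto (fun T => (NZ (T - 1) : ℝ) / nT (T - 1) * (nT (T - 1) / nT T)) atTop
      (𝓝 (1 * 1)) := by
    refine Tendsto.mul (NZ_lim.comp ?_) nT_ratio
    exact tendsto_atTop_add_const_right _ (-1) tendsto_id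
  rw [mul_one] at h1
  refine tendsto_of_tendsto_of_tendsto_of_le_of_le' (h1.comp ord_lim) NZ_ord ?_ ?_
  · filter_upwards [ord_lim.eventually (eventually_ge_atTop 11), eventually_ge_atTop 1] with N h2 h3
    have h4 := nT_pos (T := ord N) (by linarith)
    have h5 := nT_pos (T := ord N - 1) (by linarith)
    show (NZ (ord N - 1) : ℝ) / nT (ord N - 1) * (nT (ord N - 1) / nT (ord N)) ≤ _
    rw [div_mul_div_cancel₀ h5.ne']
    refine div_le_div_of_nonneg_right ?_ h4.le
    exact_mod_cast (lt_N h3).le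
  · filter_upwards [ord_lim.eventually (eventually_ge_atTop 11), eventually_ge_atTop 1] with N h2 h3
    have h4 := nT_pos (T := ord N) (by linarith)
    refine div_le_div_of_nonneg_right ?_ h4.le
    exact_mod_cast N_le h3

lemma e_lim (δ : ℝ) : Tendsto (fun T : ℝ => (1 + |Real.log δ|) / Real.log T) atTop (𝓝 0) :=
  Tendsto.div_atTop tendsto_const_nhds Real.tendsto_log_atTop

lemma cmp' {T δ : ℝ} (hT : 10 ≤ T) (hδ : 0 < δ) {r n : ℕ} (hn : 1 ≤ n) (h1 : δ * T ≤ ord n)
    (h2 : ord (n + r) ≤ T) :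
    |dl r n - xx T r n| ≤ xx T r n * ((1 + |Real.log δ|) / Real.log T) :=
  cmp hT hδ h1 (SG.ord_mono hn (Nat.le_add_right n r)) h2

lemma Dr_Bt {s y : ℝ} (hs : 0 ≤ s) (hsy : s < y) (r : ℕ) {η : ℝ} (hη : 0 < η) :
    ∀ᶠ T : ℝ in atTop, ∀ N : ℕ, 1 ≤ N → N ≤ NZ T →
      (N : ℝ) * Dr r N s ≤ η * nT T + r + nT T * Bt T r y := by
  classical
  obtain ⟨δ, hδ0, hδ1, hear⟩ := early hη
  have hy : 0 < y := hs.trans_lt hsy
  have he : ∀ᶠ T : ℝ in atTop, (1 + |Real.log δ|) / Real.log T < (y - s) / y :=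
    (tendsto_order.1 (e_lim δ)).2 _ (div_pos (by linarith) hy)
  filter_upwards [hear, he, eventually_ge_atTop 10] with T h1 h2 h3 N h4 hle
  have hn := nT_pos h3
  have hN : (0 : ℝ) < N := by exact_mod_cast h4
  have hsub : (Finset.Ioc 0 N).filter (fun n => dl r n ≤ s) ⊆
      Finset.Ioc 0 (NZ (δ * T)) ∪ (Finset.Ioc (N - r) N ∪
        (Finset.Ioc 0 (NZ T - r)).filter (fun n => xx T r n ≤ y)) := by
    intro n hn
    rw [Finset.mem_filter, Finset.mem_Ioc] at hn
    obtain ⟨⟨k1, k2⟩, k3⟩ := hn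
    rw [Finset.mem_union, Finset.mem_union, Finset.mem_Ioc, Finset.mem_Ioc, Finset.mem_filter,
      Finset.mem_Ioc]
    by_cases a1 : n ≤ NZ (δ * T)
    · exact Or.inl ⟨k1, a1⟩
    by_cases a2 : N - r < n
    · exact Or.inr (Or.inl ⟨a2, k2⟩)
    refine Or.inr (Or.inr ⟨⟨k1, by omega⟩, ?_⟩)
    have b1 : δ * T ≤ ord n := by
      by_contra hc
      push Not at hc
      exact a1 ((SG.ord_le_iff k1 _).1 hc.le)
    have b2 : ord (n + r) ≤ T := (SG.ord_le_iff (by omega) T).2 (by omega)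
    have b3 := cmp' h3 hδ0 k1 b1 b2
    have b4 := xx_nonneg (T := T) (by linarith) (r := r) k1
    have b5 := (abs_le.1 b3).1
    set e := (1 + |Real.log δ|) / Real.log T with hee
    have b6 : xx T r n * (1 - e) ≤ s := by linarith
    have b7 : s / y < 1 - e := by
      have : (y - s) / y = 1 - s / y := by field_simp
      rw [this] at h2
      linarith
    by_contra hc
    push Not at hc
    have b8 : 0 ≤ s / y := by positivity
    have b9 : y * (1 - e) < xx T r n * (1 - e) := mul_lt_mul_of_pos_right hc (by linarith)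
    have b10 : s < y * (1 - e) := by
      rw [div_lt_iff₀ hy] at b7
      linarith
    linarith
  have hcard := (Finset.card_le_card hsub).trans ((Finset.card_union_le _ _).trans
    (Nat.add_le_add_left (Finset.card_union_le _ _) _))
  rw [Nat.card_Ioc, Nat.card_Ioc] at hcard
  have hc2 : ((Finset.Ioc 0 N).filter (fun n => dl r n ≤ s)).card ≤
      NZ (δ * T) + (r + ((Finset.Ioc 0 (NZ T - r)).filter (fun n => xx T r n ≤ y)).card) := by omega
  have hc3 : (((Finset.Ioc 0 N).filter (fun n => dl r n ≤ s)).card : ℝ) ≤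
      NZ (δ * T) + (r + ((Finset.Ioc 0 (NZ T - r)).filter (fun n => xx T r n ≤ y)).card) := by
    exact_mod_cast hc2
  unfold Dr Bt
  rw [mul_div_cancel₀ _ hN.ne', mul_div_cancel₀ _ hn.ne']
  linarith

lemma Bt_Dr {s y : ℝ} (hs : 0 ≤ s) (hsy : s < y) (r : ℕ) {η : ℝ} (hη : 0 < η) :
    ∀ᶠ T : ℝ in atTop, ∀ N : ℕ, 1 ≤ N → N ≤ NZ T →
      nT T * Bt T r s ≤ η * nT T + (NZ T - N) + N * Dr r N y := by
  classical
  obtain ⟨δ, hδ0, hδ1, hear⟩ := early hη
  have hy : 0 < y := hs.trans_lt hsy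
  have he : ∀ᶠ T : ℝ in atTop, (1 + |Real.log δ|) / Real.log T < (y - s) / y :=
    (tendsto_order.1 (e_lim δ)).2 _ (div_pos (by linarith) hy)
  filter_upwards [hear, he, eventually_ge_atTop 10] with T h1 h2 h3 N h4 hle
  have hn := nT_pos h3
  have hN : (0 : ℝ) < N := by exact_mod_cast h4
  have hsub : (Finset.Ioc 0 (NZ T - r)).filter (fun n => xx T r n ≤ s) ⊆
      Finset.Ioc 0 (NZ (δ * T)) ∪ (Finset.Ioc N (NZ T) ∪
        (Finset.Ioc 0 N).filter (fun n => dl r n ≤ y)) := by
    intro n hn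
    rw [Finset.mem_filter, Finset.mem_Ioc] at hn
    obtain ⟨⟨k1, k2⟩, k3⟩ := hn
    rw [Finset.mem_union, Finset.mem_union, Finset.mem_Ioc, Finset.mem_Ioc, Finset.mem_filter,
      Finset.mem_Ioc]
    by_cases a1 : n ≤ NZ (δ * T)
    · exact Or.inl ⟨k1, a1⟩
    by_cases a2 : N < n
    · exact Or.inr (Or.inl ⟨a2, by omega⟩)
    refine Or.inr (Or.inr ⟨⟨k1, by omega⟩, ?_⟩)
    have b1 : δ * T ≤ ord n := by
      by_contra hc
      push Not at hc
      exact a1 ((SG.ord_le_iff k1 _).1 hc.le)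
    have b2 : ord (n + r) ≤ T := (SG.ord_le_iff (by omega) T).2 (by omega)
    have b3 := cmp' h3 hδ0 k1 b1 b2
    have b4 := xx_nonneg (T := T) (by linarith) (r := r) k1
    have b5 := (abs_le.1 b3).2
    set e := (1 + |Real.log δ|) / Real.log T with hee
    have hL := one_lt_log (show 3 ≤ T by linarith)
    have he0 : 0 ≤ e := by
      rw [hee]
      have := abs_nonneg (Real.log δ)
      positivity
    have b6 : dl r n ≤ s * (1 + e) := by
      have : xx T r n * e ≤ s * e := mul_le_mul_of_nonneg_right k3 he0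
      linarith
    have b7 : s * e ≤ y - s := by
      rw [lt_div_iff₀ hy] at h2
      have : s * e ≤ y * e := mul_le_mul_of_nonneg_right hsy.le he0
      linarith
    linarith
  have hcard := (Finset.card_le_card hsub).trans ((Finset.card_union_le _ _).trans
    (Nat.add_le_add_left (Finset.card_union_le _ _) _))
  rw [Nat.card_Ioc, Nat.card_Ioc, Nat.sub_zero] at hcard
  have hc3 : (((Finset.Ioc 0 (NZ T - r)).filter (fun n => xx T r n ≤ s)).card : ℝ) ≤
      NZ (δ * T) + ((NZ T - N) + ((Finset.Ioc 0 N).filter (fun n => dl r n ≤ y)).card) := by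
    rw [← Nat.cast_sub hle]
    exact_mod_cast hcard
  unfold Dr Bt
  rw [mul_div_cancel₀ _ hN.ne', mul_div_cancel₀ _ hn.ne']
  linarith

lemma Bt_nonneg {T : ℝ} (hT : 10 ≤ T) (r : ℕ) (y : ℝ) : 0 ≤ Bt T r y := by
  have := nT_pos hT
  unfold Bt
  positivity

lemma Bt_le {T : ℝ} (hT : 10 ≤ T) (r : ℕ) (y : ℝ) : Bt T r y ≤ NZ T / nT T := by
  classical
  have h := nT_pos hT
  unfold Bt
  refine div_le_div_of_nonneg_right ?_ h.le
  have := Finset.card_filter_le (Finset.Ioc 0 (NZ T - r)) (fun n => xx T r n ≤ y)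
  rw [Nat.card_Ioc] at this
  have h2 : ((Finset.Ioc 0 (NZ T - r)).filter (fun n => xx T r n ≤ y)).card ≤ NZ T := by omega
  exact_mod_cast h2

lemma Dr_nonneg (r N : ℕ) (s : ℝ) : 0 ≤ Dr r N s := by
  unfold Dr
  positivity

lemma Dr_le (r N : ℕ) (s : ℝ) : Dr r N s ≤ 1 := by
  classical
  unfold Dr
  refine div_le_one_of_le₀ ?_ (Nat.cast_nonneg _)
  have := Finset.card_filter_le (Finset.Ioc 0 N) (fun n => dl r n ≤ s)
  rw [Nat.card_Ioc] at this
  have h2 : ((Finset.Ioc 0 N).filter (fun n => dl r n ≤ s)).card ≤ N := by omega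
  exact_mod_cast h2

lemma Bt_mono {T : ℝ} (hT : 10 ≤ T) (r : ℕ) : Monotone (Bt T r) := by
  classical
  intro a b hab
  have h := nT_pos hT
  unfold Bt
  refine div_le_div_of_nonneg_right ?_ h.le
  exact_mod_cast Finset.card_le_card fun n hn => by
    rw [Finset.mem_filter] at hn ⊢
    exact ⟨hn.1, hn.2.trans hab⟩

lemma Dr_mono (r N : ℕ) : Monotone (Dr r N) := by
  classical
  intro a b hab
  unfold Dr
  refine div_le_div_of_nonneg_right ?_ (Nat.cast_nonneg _)
  exact_mod_cast Finset.card_le_card fun n hn => by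
    rw [Finset.mem_filter] at hn ⊢
    exact ⟨hn.1, hn.2.trans hab⟩

/-- heights and numbers of zeros that belong together -/
structure Par {ι : Type*} (g : Filter ι) (τ : ι → ℝ) (ν : ι → ℕ) : Prop where
  τ_lim : Tendsto τ g atTop
  ν_lim : Tendsto (fun i => (ν i : ℝ) / nT (τ i)) g (𝓝 1)
  le : ∀ᶠ i in g, ν i ≤ NZ (τ i)

lemma par_ord : Par atTop (fun N : ℕ => ord N) (fun N => N) where
  τ_lim := ord_lim
  ν_lim := N_ratio
  le := by
    filter_upwards [eventually_ge_atTop 1] with N hN using N_le hN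

lemma par_id : Par atTop (fun T : ℝ => T) (fun T => NZ T) where
  τ_lim := tendsto_id
  ν_lim := NZ_lim
  le := Eventually.of_forall fun _ => le_rfl

lemma Par.mono {ι : Type*} {g g' : Filter ι} {τ : ι → ℝ} {ν : ι → ℕ} (h : Par g τ ν)
    (hg : g' ≤ g) : Par g' τ ν :=
  ⟨h.τ_lim.mono_left hg, h.ν_lim.mono_left hg, hg h.le⟩

end Q241.NN
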