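import Pool.Agent.Q241.HF.Abs

/-! # Two limits of the pair counting functions whose difference is exponentially small coincide -/

set_option autoImplicit false

open MeasureTheory Filter Topology Real

namespace Q241.NN

open Pool.Agent.Y744 Q241.HF

/-- a possible limit of the pair counting functions -/
structure Adm (κ C0 : ℝ) (A' : ℝ → ℝ) : Prop where
  mono : Monotone A'
  neg : ∀ y, y < 0 → A' y = 0
  lin : ∀ y, |A' y| ≤ C0 * (1 + |y|)
  mont : ∀ K, TK κ K → ∀ h, 0 < h →
      ∫ y, A' y * (ct K (y + h) - ct K (y - h)) = ∫ y, AG y * (ct K (y + h) - ct K (y - h))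

lemma two_sq {C0 : ℝ} {A' : ℝ → ℝ} (hb : ∀ y, |A' y| ≤ C0 * (1 + |y|)) (y : ℝ) :
    |A' y| ≤ (2 * C0) * (1 + y ^ 2) := by
  have hC0 : 0 ≤ C0 := by
    have := (abs_nonneg _).trans (hb 0)
    simpa using this
  refine (hb y).trans ?_
  have h1 : 1 + |y| ≤ 2 * (1 + y ^ 2) := by
    have := sq_abs y
    nlinarith [sq_nonneg (|y| - 1), abs_nonneg y]
  nlinarith

lemma ae_abs {P : ℝ → Prop} (h : ∀ᵐ a, P a) : ∀ᵐ a : ℝ, P |a| := by
  have h2 : ∀ᵐ a : ℝ, P (-a) :=
    (Measure.measurePreserving_neg (volume : Measure ℝ)).quasiMeasurePreserving.ae h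
  filter_upwards [h, h2] with a h3 h4
  rcases abs_cases a with ⟨h5, _⟩ | ⟨h5, _⟩
  · rw [h5]; exact h3
  · rw [h5]; exact h4

/-- two functions on the half line with the same low frequencies, whose difference is bounded below
by an exponentially small function, coincide -/
theorem two_rigid' {κ C1 C2 : ℝ} {A1 A2 : ℝ → ℝ} (hκ : 0 < κ) (m1 : Measurable A1)
    (m2 : Measurable A2) (n1 : ∀ y, y < 0 → A1 y = 0) (n2 : ∀ y, y < 0 → A2 y = 0)
    (l1 : ∀ y, |A1 y| ≤ C1 * (1 + |y|)) (l2 : ∀ y, |A2 y| ≤ C2 * (1 + |y|))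
    (hm : ∀ K, TK κ K → ∀ h, 0 < h →
      ∫ y, A1 y * (ct K (y + h) - ct K (y - h)) = ∫ y, A2 y * (ct K (y + h) - ct K (y - h)))
    {C c a0 : ℝ} (hC : 0 ≤ C) (hc : 0 < c) (ha0 : 0 < a0)
    (hyp : ∀ᵐ a, a0 ≤ a → -(C * Real.exp (-(c * a))) ≤ A1 a - A2 a) :
    ∀ᵐ x, 0 < x → A1 x = A2 x := by
  have hC1 : 0 ≤ C1 := by
    have := (abs_nonneg _).trans (l1 0)
    simpa using this
  have hC2 : 0 ≤ C2 := by
    have := (abs_nonneg _).trans (l2 0)
    simpa using this
  set E : ℝ → ℝ := fun y => (A1 y - A2 y) - (A1 (-y) - A2 (-y)) with hEd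
  have hEm : Measurable E := (m1.sub m2).sub ((m1.comp measurable_neg).sub (m2.comp measurable_neg))
  have hEb : ∀ y, |E y| ≤ (2 * C1 + 2 * C2) * (1 + |y|) := by
    intro y
    have e1 := abs_le.1 (l1 y)
    have e2 := abs_le.1 (l2 y)
    have e3 := abs_le.1 (l1 (-y))
    have e4 := abs_le.1 (l2 (-y))
    rw [abs_neg] at e3 e4
    rw [abs_le]
    simp only [hEd]
    constructor <;> linarith [e1.1, e1.2, e2.1, e2.2, e3.1, e3.2, e4.1, e4.2]
  have hpos : ∀ y, 0 < y → E y = A1 y - A2 y := by
    intro y hy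
    simp only [hEd]
    rw [n1 (-y) (by linarith), n2 (-y) (by linarith)]
    ring
  set B : ℝ := 2 * (2 * C1 + 2 * C2) with hB
  have hB0 : 0 ≤ B := by rw [hB]; positivity
  have hEb2 : ∀ y, |E y| ≤ B * (1 + y ^ 2) := fun y => two_sq hEb y
  set H : ℝ → ℝ := fun y => y * E y with hH
  have hHm : Measurable H := measurable_id.mul hEm
  have hHe : ∀ y, H (-y) = H y := by
    intro y
    simp only [hH, hEd]
    rw [neg_neg]
    ring
  have hHb : ∀ y, |H y| ≤ B * (1 + y ^ 2) := by
    intro y
    simp only [hH]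
    rw [abs_mul]
    have h3 : |y| * (1 + |y|) ≤ 2 * (1 + y ^ 2) := by
      have := sq_abs y
      nlinarith [sq_nonneg (|y| - 1), abs_nonneg y]
    calc |y| * |E y| ≤ |y| * ((2 * C1 + 2 * C2) * (1 + |y|)) :=
          mul_le_mul_of_nonneg_left (hEb y) (abs_nonneg _)
      _ = (2 * C1 + 2 * C2) * (|y| * (1 + |y|)) := by ring
      _ ≤ (2 * C1 + 2 * C2) * (2 * (1 + y ^ 2)) :=
          mul_le_mul_of_nonneg_left h3 (by positivity)
      _ = B * (1 + y ^ 2) := by rw [hB]; ring
  set D : ℝ := 2 * C / c + B * (1 + a0 ^ 2) * Real.exp (c / 2 * a0) with hD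
  have hD0 : 0 ≤ D := by rw [hD]; positivity
  have hlow : ∀ᵐ y, -(D * Real.exp (-(c / 2 * |y|))) ≤ H y := by
    filter_upwards [ae_abs hyp] with y hyp1
    by_cases hy : a0 ≤ |y|
    · have hy0 : 0 < |y| := ha0.trans_le hy
      have h3 := hyp1 hy
      have h4 : H y = |y| * (A1 |y| - A2 |y|) := by
        have h5 : H y = H |y| := by
          rcases abs_cases y with ⟨h, _⟩ | ⟨h, _⟩
          · rw [h]
          · rw [h, hHe]
        rw [h5]
        simp only [hH]
        rw [hpos _ hy0]
      rw [h4]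
      have h5 : |y| * (C * Real.exp (-(c * |y|))) ≤ D * Real.exp (-(c / 2 * |y|)) := by
        have e1 : Real.exp (-(c * |y|)) = Real.exp (-(c / 2 * |y|)) * Real.exp (-(c / 2 * |y|)) := by
          rw [← Real.exp_add]
          congr 1
          ring
        have e2 : |y| * Real.exp (-(c / 2 * |y|)) ≤ 2 / c := by
          have h4 := Real.add_one_le_exp (c / 2 * |y|)
          rw [Real.exp_neg, ← div_eq_mul_inv, div_le_div_iff₀ (Real.exp_pos _) hc]
          nlinarith
        rw [e1]
        have h5 : 0 ≤ C * Real.exp (-(c / 2 * |y|)) := by positivity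
        have h6 := mul_le_mul_of_nonneg_right e2 h5
        have h7 : 0 ≤ B * (1 + a0 ^ 2) * Real.exp (c / 2 * a0) * Real.exp (-(c / 2 * |y|)) := by
          positivity
        calc |y| * (C * (Real.exp (-(c / 2 * |y|)) * Real.exp (-(c / 2 * |y|)))) =
            |y| * Real.exp (-(c / 2 * |y|)) * (C * Real.exp (-(c / 2 * |y|))) := by ring
          _ ≤ 2 / c * (C * Real.exp (-(c / 2 * |y|))) := h6
          _ ≤ D * Real.exp (-(c / 2 * |y|)) := by
              rw [hD]
              have : 2 / c * (C * Real.exp (-(c / 2 * |y|))) =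
                2 * C / c * Real.exp (-(c / 2 * |y|)) := by ring
              rw [this]
              linarith
      have h6 := mul_le_mul_of_nonneg_left h3 hy0.le
      linarith
    · push Not at hy
      have h3 := neg_abs_le (H y)
      have h4 := hHb y
      have h5 : B * (1 + y ^ 2) ≤ B * (1 + a0 ^ 2) := by
        refine mul_le_mul_of_nonneg_left ?_ hB0
        have : y ^ 2 ≤ a0 ^ 2 := by
          rw [← sq_abs]
          exact pow_le_pow_left₀ (abs_nonneg _) hy.le 2
        linarith
      have h6 : 1 ≤ Real.exp (c / 2 * a0) * Real.exp (-(c / 2 * |y|)) := by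
        rw [← Real.exp_add]
        refine Real.one_le_exp ?_
        nlinarith
      have h7 : B * (1 + a0 ^ 2) ≤ D * Real.exp (-(c / 2 * |y|)) := by
        rw [hD]
        have h8 : 0 ≤ 2 * C / c * Real.exp (-(c / 2 * |y|)) := by positivity
        have h9 : B * (1 + a0 ^ 2) * 1 ≤ B * (1 + a0 ^ 2) * (Real.exp (c / 2 * a0) *
            Real.exp (-(c / 2 * |y|))) := mul_le_mul_of_nonneg_left h6 (by positivity)
        nlinarith
      linarith
  have hb1 := two_sq l1
  have hb2 := two_sq l2
  have hz : ∀ K, TK κ K → ∫ y, H y * ct K y = 0 := by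
    intro K hK
    refine mul_annih hK hEm hEb2 fun L hL h hh => ?_
    set w : ℝ → ℝ := fun y => ct L (y + h) - ct L (y - h) with hw
    have hwodd : ∀ y, w (-y) = -w y := by
      intro y
      simp only [hw]
      have e1 : ct L (-y + h) = ct L (y - h) := by
        rw [show -y + h = -(y - h) by ring, TK.ct_neg]
      have e2 : ct L (-y - h) = ct L (y + h) := by
        rw [show -y - h = -(y + h) by ring, TK.ct_neg]
      rw [e1, e2]
      ring
    have t1 : ∀ h, Integrable fun y => A1 y * ct L (y + h) := fun h => test_int hL m1 hb1 h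
    have t2 : ∀ h, Integrable fun y => A2 y * ct L (y + h) := fun h => test_int hL m2 hb2 h
    have s1 : Integrable fun y => A1 y * w y := by
      refine ((t1 h).sub (t1 (-h))).congr (Eventually.of_forall fun y => ?_)
      show A1 y * ct L (y + h) - A1 y * ct L (y + -h) = _
      simp only [hw]
      rw [← sub_eq_add_neg]
      ring
    have s2 : Integrable fun y => A2 y * w y := by
      refine ((t2 h).sub (t2 (-h))).congr (Eventually.of_forall fun y => ?_)
      show A2 y * ct L (y + h) - A2 y * ct L (y + -h) = _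
      simp only [hw]
      rw [← sub_eq_add_neg]
      ring
    have s3 : Integrable fun y => (A1 y - A2 y) * w y :=
      (s1.sub s2).congr (Eventually.of_forall fun y => by simp only [Pi.sub_apply]; ring)
    have s4 : ∫ y, (A1 y - A2 y) * w y = 0 := by
      have e : ∀ y, (A1 y - A2 y) * w y = A1 y * w y - A2 y * w y := fun y => by ring
      simp_rw [e]
      rw [integral_sub s1 s2]
      have := hm L hL h hh
      simp only [hw]
      linarith
    have s5 : ∫ y, (A1 (-y) - A2 (-y)) * w y = 0 := by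
      have e1 := integral_neg_eq_self (μ := volume) (fun y => (A1 (-y) - A2 (-y)) * w y)
      rw [← e1]
      have e2 : ∀ y, (A1 (- -y) - A2 (- -y)) * w (-y) = -((A1 y - A2 y) * w y) := by
        intro y
        rw [neg_neg, hwodd]
        ring
      simp_rw [e2]
      rw [integral_neg, s4, neg_zero]
    have s6 : Integrable fun y => (A1 (-y) - A2 (-y)) * w y := by
      have := s3.comp_neg
      refine this.neg.congr (Eventually.of_forall fun y => ?_)
      show -((A1 (-y) - A2 (-y)) * w (-y)) = _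
      rw [hwodd]
      ring
    have e : ∀ y, E y * (ct L (y + h) - ct L (y - h)) =
        (A1 y - A2 y) * w y - (A1 (-y) - A2 (-y)) * w y := by
      intro y
      simp only [hEd, hw]
      ring
    simp_rw [e]
    rw [integral_sub s3 s6, s4, s5, sub_zero]
  have hfin := high_pass hκ hHm hHe hHb hD0 (by positivity : 0 < c / 2) hlow hz
  filter_upwards [hfin] with y hy hy0
  have h3 : E y = 0 := by
    rcases mul_eq_zero.1 hy with h | h
    · exact absurd h hy0.ne'
    · exact h
  rw [hpos y hy0] at h3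
  linarith

theorem two_rigid {κ C1 C2 : ℝ} {A1 A2 : ℝ → ℝ} (hκ : 0 < κ) (h1 : Adm κ C1 A1)
    (h2 : Adm κ C2 A2) {C c a0 : ℝ} (hC : 0 ≤ C) (hc : 0 < c) (ha0 : 0 < a0)
    (hyp : ∀ᵐ a, a0 ≤ a → -(C * Real.exp (-(c * a))) ≤ A1 a - A2 a) :
    ∀ᵐ x, 0 < x → A1 x = A2 x :=
  two_rigid' hκ h1.mono.measurable h2.mono.measurable h1.neg h2.neg h1.lin h2.lin
    (fun K hK h hh => (h1.mont K hK h hh).trans (h2.mont K hK h hh).symm) hC hc ha0 hyp

end Q241.NN
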