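import Pool.Agent.Y763.AH.E
import Pool.Agent.H382L.GapUnif
import Pool.Agent.Q241.HF.Lin
import Pool.Agent.Q241.NN.A

/-! # The pair counting function and the spacings of the neighbours -/

set_option autoImplicit false

open MeasureTheory Filter Topology Set

namespace Q241.NN

open Pool.Agent.Y744 Pool.Agent.Y763.AH
open Pool.Agent.Y749.Rig (nT nT_pos ZZ mm mem_ZZ zs_im_pos one_lt_log)
open SG (ord NZ)
open H370 (mult)

/-- the normalised distance of the `n`-th ordinate and its `r`-th neighbour -/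
noncomputable def dl (r n : ℕ) : ℝ :=
  (ord (n + r) * Real.log (ord (n + r)) - ord n * Real.log (ord n)) / (2 * Real.pi)

open Classical in
/-- the distribution function of the spacings of the `r`-th neighbours -/
noncomputable def Dr (r N : ℕ) (s : ℝ) : ℝ :=
  (((Finset.Ioc 0 N).filter (fun n => dl r n ≤ s)).card : ℝ) / N

/-- the same distance normalised with `log T` -/
noncomputable def xx (T : ℝ) (r n : ℕ) : ℝ := (ord (n + r) - ord n) * Real.log T / (2 * Real.pi)

open Classical in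
/-- the number of the `r`-th neighbours up to height `T` at distance at most `y` -/
noncomputable def Bt (T : ℝ) (r : ℕ) (y : ℝ) : ℝ :=
  (((Finset.Ioc 0 (NZ T - r)).filter (fun n => xx T r n ≤ y)).card : ℝ) / nT T

lemma Zt_eq (T : ℝ) : Zt T = ZZ T := by
  ext s
  rw [mem_Zt, mem_ZZ]
  constructor
  · rintro ⟨h1, h2, h3, h4, h5⟩
    exact ⟨h5, h1, h2, h3.le, h4⟩
  · intro h
    exact ⟨h.2.1, h.2.2.1, zs_im_pos h, h.2.2.2.2, h.1⟩

lemma xx_nonneg {T : ℝ} (hT : 1 < T) {r n : ℕ} (hn : 1 ≤ n) : 0 ≤ xx T r n := by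
  have h1 := SG.ord_mono hn (Nat.le_add_right n r)
  have h2 := Real.log_pos hT
  have := Real.pi_pos
  unfold xx
  have : 0 ≤ ord (n + r) - ord n := by linarith
  positivity

/-- **the pair counting function is a sum over the neighbours** -/
theorem Aa_idx (hRH : RiemannHypothesis) {T : ℝ} (hT : 10 ≤ T) {y : ℝ} (hy : 0 ≤ y) :
    Aa T y = NZ T / nT T + 2 * ∑ r ∈ Finset.Ico 1 (NZ T), Bt T r y := by
  classical
  have hpi := Real.pi_pos
  have e1 : PC T {x | |x| ≤ y} = ∑ s ∈ ZZ T, ∑ s' ∈ ZZ T, mm s * mm s' *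
      (fun a b : ℝ => {x : ℝ | |x| ≤ y}.indicator (fun _ => (1 : ℝ))
        ((a - b) * Real.log T / (2 * Real.pi))) s.im s'.im := by
    unfold PC
    rw [Zt_eq]
    rfl
  have hsymm : ∀ n n' : ℕ, {x : ℝ | |x| ≤ y}.indicator (fun _ => (1 : ℝ))
      ((ord n - ord n') * Real.log T / (2 * Real.pi)) = {x : ℝ | |x| ≤ y}.indicator
      (fun _ => (1 : ℝ)) ((ord n' - ord n) * Real.log T / (2 * Real.pi)) := by
    intro n n'
    have e : (ord n - ord n') * Real.log T / (2 * Real.pi) =
      -((ord n' - ord n) * Real.log T / (2 * Real.pi)) := by ring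
    rw [e]
    unfold Set.indicator
    simp only [Set.mem_ofPred_eq, abs_neg]
  have e2 := sum_idx2 hRH T (fun a b : ℝ => {x : ℝ | |x| ≤ y}.indicator (fun _ => (1 : ℝ))
        ((a - b) * Real.log T / (2 * Real.pi)))
  have e3 := full_sum (fun n n' => {x : ℝ | |x| ≤ y}.indicator (fun _ => (1 : ℝ))
        ((ord n - ord n') * Real.log T / (2 * Real.pi))) hsymm (NZ T)
  have e4 : ∑ n ∈ Finset.Ioc 0 (NZ T), {x : ℝ | |x| ≤ y}.indicator (fun _ => (1 : ℝ))
        ((ord n - ord n) * Real.log T / (2 * Real.pi)) = NZ T := by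
    rw [Finset.sum_congr rfl fun n _ => by
      rw [sub_self, zero_mul, zero_div, Set.indicator_of_mem (by
        show |(0 : ℝ)| ≤ y
        rw [abs_zero]; exact hy)]]
    simp
  have e5 : ∀ r n : ℕ, 1 ≤ n → {x : ℝ | |x| ≤ y}.indicator (fun _ => (1 : ℝ))
      ((ord n - ord (n + r)) * Real.log T / (2 * Real.pi)) = if xx T r n ≤ y then 1 else 0 := by
    intro r n hn
    have e : (ord n - ord (n + r)) * Real.log T / (2 * Real.pi) = -xx T r n := by
      unfold xx; ring
    have h0 := xx_nonneg (T := T) (by linarith) (r := r) hn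
    rw [e]
    unfold Set.indicator
    simp only [Set.mem_ofPred_eq, abs_neg, abs_of_nonneg h0]
  have e6 : PS (fun n n' => {x : ℝ | |x| ≤ y}.indicator (fun _ => (1 : ℝ))
        ((ord n - ord n') * Real.log T / (2 * Real.pi))) (NZ T) =
      ∑ r ∈ Finset.Ico 1 (NZ T), nT T * Bt T r y := by
    unfold PS
    refine Finset.sum_congr rfl fun r _ => ?_
    rw [Finset.sum_congr rfl fun n hn => e5 r n (Finset.mem_Ioc.1 hn).1]
    unfold Bt
    rw [mul_div_cancel₀ _ (nT_pos hT).ne', Finset.card_filter]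
    push_cast
    rfl
  have hX : Xf T = nT T := rfl
  have hn := nT_pos hT
  unfold Aa
  rw [e1, e2, e3, e4, e6, hX, ← Finset.mul_sum]
  field_simp

end Q241.NN
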