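import Pool.Agent.Q241.NN.C

/-! # Limits along ultrafilters -/

set_option autoImplicit false

open MeasureTheory Filter Topology Set

namespace Q241.NN

open Pool.Agent.Y744 Pool.Agent.Y763.AH
open Pool.Agent.Y749.Rig (nT nT_pos ZZ mm mem_ZZ zs_im_pos one_lt_log)
open SG (ord NZ)

/-- limits of all the statistics along a filter -/
structure Lims {ι : Type*} (g : Filter ι) (τ : ι → ℝ) (ν : ι → ℕ) (b B : ℕ → ℝ → ℝ)
    (A' : ℝ → ℝ) : Prop where
  par : Par g τ ν
  hb : ∀ r s, Tendsto (fun i => Dr r (ν i) s) g (𝓝 (b r s))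
  hB : ∀ r y, Tendsto (fun i => Bt (τ i) r y) g (𝓝 (B r y))
  hA : ∀ y, Tendsto (fun i => Aa (τ i) y) g (𝓝 (A' y))

lemma ultra_lim {α : Type*} (g : Ultrafilter α) {f : α → ℝ} {a b : ℝ}
    (h : ∀ᶠ x in (g : Filter α), f x ∈ Icc a b) :
    ∃ L, Tendsto f (g : Filter α) (𝓝 L) := by
  have h1 : ((g.map f : Ultrafilter ℝ) : Filter ℝ) ≤ 𝓟 (Icc a b) := by
    rw [le_principal_iff]
    exact h
  obtain ⟨L, _, hL⟩ := isCompact_Icc.ultrafilter_le_nhds _ h1
  exact ⟨L, hL⟩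

variable {ι : Type*} {τ : ι → ℝ} {ν : ι → ℕ}

lemma Par.NZ_lim {g : Filter ι} (h : Par g τ ν) :
    Tendsto (fun i => (NZ (τ i) : ℝ) / nT (τ i)) g (𝓝 1) :=
  Pool.Agent.Y763.AH.NZ_lim.comp h.τ_lim

lemma Par.ten {g : Filter ι} (h : Par g τ ν) : ∀ᶠ i in g, 10 ≤ τ i :=
  h.τ_lim.eventually (eventually_ge_atTop 10)

lemma Par.NZ_le2 {g : Filter ι} (h : Par g τ ν) : ∀ᶠ i in g, (NZ (τ i) : ℝ) / nT (τ i) ≤ 2 :=
  h.NZ_lim.eventually_le_const (by norm_num)

lemma Par.ν_atTop {g : Filter ι} (h : Par g τ ν) : Tendsto ν g atTop := by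
  have h1 : Tendsto (fun i => (ν i : ℝ) / nT (τ i) * nT (τ i)) g atTop :=
    h.ν_lim.pos_mul_atTop one_pos (nT_atTop.comp h.τ_lim)
  have h2 : Tendsto (fun i => (ν i : ℝ)) g atTop := by
    refine h1.congr' ?_
    filter_upwards [h.ten] with i hi
    exact div_mul_cancel₀ _ (nT_pos hi).ne'
  exact tendsto_natCast_atTop_iff.1 h2

lemma exists_lims (g : Ultrafilter ι) (hp : Par (g : Filter ι) τ ν) :
    ∃ (b B : ℕ → ℝ → ℝ) (A' : ℝ → ℝ), Lims (g : Filter ι) τ ν b B A' := by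
  obtain ⟨C0, T0, hT0, hA⟩ := Q241.HF.Aa_linU
  have h1 : ∀ r s, ∃ L, Tendsto (fun i => Dr r (ν i) s) (g : Filter ι) (𝓝 L) := fun r s =>
    ultra_lim g (a := 0) (b := 1) (Eventually.of_forall fun N => ⟨Dr_nonneg _ _ _, Dr_le _ _ _⟩)
  have h2 : ∀ r y, ∃ L, Tendsto (fun i => Bt (τ i) r y) (g : Filter ι) (𝓝 L) := fun r y => by
    refine ultra_lim g (a := 0) (b := 2) ?_
    filter_upwards [hp.NZ_le2, hp.ten] with N h3 h4
    exact ⟨Bt_nonneg h4 _ _, (Bt_le h4 _ _).trans h3⟩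
  have h3 : ∀ y, ∃ L, Tendsto (fun i => Aa (τ i) y) (g : Filter ι) (𝓝 L) := fun y => by
    refine ultra_lim g (a := -(C0 * (1 + |y|))) (b := C0 * (1 + |y|)) ?_
    filter_upwards [hp.τ_lim.eventually (eventually_ge_atTop T0)] with N h4
    exact abs_le.1 (hA _ h4 y)
  choose b hb using h1
  choose B hB using h2
  choose A' hA' using h3
  exact ⟨b, B, A', hp, hb, hB, hA'⟩

section

variable {g : Filter ι} {b B : ℕ → ℝ → ℝ} {A' : ℝ → ℝ}

lemma Lims.b_nonneg [NeBot g] (h : Lims g τ ν b B A') (r : ℕ) (s : ℝ) : 0 ≤ b r s :=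
  ge_of_tendsto (h.hb r s) (Eventually.of_forall fun _ => Dr_nonneg _ _ _)

lemma Lims.b_le [NeBot g] (h : Lims g τ ν b B A') (r : ℕ) (s : ℝ) : b r s ≤ 1 :=
  le_of_tendsto (h.hb r s) (Eventually.of_forall fun _ => Dr_le _ _ _)

lemma Lims.b_mono [NeBot g] (h : Lims g τ ν b B A') (r : ℕ) : Monotone (b r) := fun _ _ hxy =>
  le_of_tendsto_of_tendsto' (h.hb r _) (h.hb r _) fun _ => Dr_mono _ _ hxy

lemma Lims.B_nonneg [NeBot g] (h : Lims g τ ν b B A') (r : ℕ) (s : ℝ) : 0 ≤ B r s :=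
  ge_of_tendsto (h.hB r s) (h.par.ten.mono fun _ h4 => Bt_nonneg h4 _ _)

lemma Lims.B_le [NeBot g] (h : Lims g τ ν b B A') (r : ℕ) (s : ℝ) : B r s ≤ 1 :=
  le_of_tendsto_of_tendsto (h.hB r s) h.par.NZ_lim
    (h.par.ten.mono fun _ h4 => Bt_le h4 _ _)

lemma Lims.B_mono [NeBot g] (h : Lims g τ ν b B A') (r : ℕ) : Monotone (B r) :=
  fun _ _ hxy => le_of_tendsto_of_tendsto (h.hB r _) (h.hB r _)
    (h.par.ten.mono fun _ h4 => Bt_mono h4 _ hxy)

lemma Lims.b_le_B [NeBot g] (h : Lims g τ ν b B A') (r : ℕ) {s y : ℝ} (hs : 0 ≤ s)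
    (hsy : s < y) : b r s ≤ B r y := by
  refine le_of_forall_pos_le_add fun η hη => ?_
  have h1 : Tendsto (fun i => (ν i : ℝ) / nT (τ i) * Dr r (ν i) s) g (𝓝 (1 * b r s)) :=
    h.par.ν_lim.mul (h.hb r s)
  have h2 : Tendsto (fun i => η + r / nT (τ i) + Bt (τ i) r y) g (𝓝 (η + 0 + B r y)) := by
    refine Tendsto.add (tendsto_const_nhds.add ?_) (h.hB r y)
    exact Tendsto.div_atTop tendsto_const_nhds (nT_atTop.comp h.par.τ_lim)
  rw [one_mul] at h1
  have h3 := le_of_tendsto_of_tendsto h1 h2 (by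
    filter_upwards [h.par.τ_lim.eventually (Dr_Bt hs hsy r hη), h.par.ten, h.par.le,
      h.par.ν_atTop.eventually (eventually_ge_atTop 1)] with i h4 h5 h7 h8
    have h6 := nT_pos h5
    rw [div_mul_eq_mul_div, div_le_iff₀ h6]
    calc _ ≤ _ := h4 _ h8 h7
      _ = _ := by field_simp)
  linarith

lemma Lims.B_le_b [NeBot g] (h : Lims g τ ν b B A') (r : ℕ) {s y : ℝ} (hs : 0 ≤ s)
    (hsy : s < y) : B r s ≤ b r y := by
  refine le_of_forall_pos_le_add fun η hη => ?_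
  have h1 : Tendsto (fun i => η + ((NZ (τ i) : ℝ) / nT (τ i) - (ν i : ℝ) / nT (τ i)) +
      (ν i : ℝ) / nT (τ i) * Dr r (ν i) y) g (𝓝 (η + (1 - 1) + 1 * b r y)) :=
    (tendsto_const_nhds.add (h.par.NZ_lim.sub h.par.ν_lim)).add
      (h.par.ν_lim.mul (h.hb r y))
  have h3 := le_of_tendsto_of_tendsto (h.hB r s) h1 (by
    filter_upwards [h.par.τ_lim.eventually (Bt_Dr hs hsy r hη), h.par.ten, h.par.le,
      h.par.ν_atTop.eventually (eventually_ge_atTop 1)] with i h4 h5 h8 h9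
    have h6 := nT_pos h5
    have h7 : nT (τ i) * Bt (τ i) r s ≤ nT (τ i) * (η + ((NZ (τ i) : ℝ) / nT (τ i) -
        (ν i : ℝ) / nT (τ i)) + (ν i : ℝ) / nT (τ i) * Dr r (ν i) y) := by
      calc _ ≤ _ := h4 _ h9 h8
        _ = _ := by field_simp
    exact le_of_mul_le_mul_left h7 h6)
  linarith

/-- both limits agree where both are continuous -/
lemma Lims.eq_at [NeBot g] (h : Lims g τ ν b B A') (r : ℕ) {x : ℝ} (hx : 0 < x)
    (h1 : ContinuousAt (b r) x) (h2 : ContinuousAt (B r) x) : B r x = b r x := by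
  have hne : NeBot (𝓝[<] x) := inferInstance
  have hev : ∀ᶠ s in 𝓝[<] x, 0 ≤ s ∧ s < x := by
    filter_upwards [Ico_mem_nhdsLT hx] with s hs
    exact hs
  apply le_antisymm
  · exact le_of_tendsto (h2.tendsto.mono_left nhdsWithin_le_nhds)
      (hev.mono fun s hs => h.B_le_b r hs.1 hs.2)
  · exact le_of_tendsto (h1.tendsto.mono_left nhdsWithin_le_nhds)
      (hev.mono fun s hs => h.b_le_B r hs.1 hs.2)

lemma Lims.eq_ae [NeBot g] (h : Lims g τ ν b B A') :
    ∀ᵐ x : ℝ, 0 < x → ∀ r, B r x = b r x := by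
  have h1 : ∀ᵐ x : ℝ, ∀ r, ContinuousAt (b r) x := by
    rw [ae_all_iff]
    intro r
    filter_upwards [(h.b_mono r).countable_not_continuousAt.ae_notMem volume] with x hx
    by_contra hc
    exact hx hc
  have h2 : ∀ᵐ x : ℝ, ∀ r, ContinuousAt (B r) x := by
    rw [ae_all_iff]
    intro r
    filter_upwards [(h.B_mono r).countable_not_continuousAt.ae_notMem volume] with x hx
    by_contra hc
    exact hx hc
  filter_upwards [h1, h2] with x h3 h4 hx r
  exact h.eq_at r hx (h3 r) (h4 r)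

/-- the limit of the pair counting function is the sum of the limits for the neighbours -/
lemma Lims.hasSum (hRH : RiemannHypothesis) [NeBot g] (h : Lims g τ ν b B A')
    {y : ℝ} (hy : 0 ≤ y) : HasSum (fun r => B (r + 1) y) ((A' y - 1) / 2) := by
  classical
  rw [hasSum_iff_tendsto_nat_of_nonneg (fun r => h.B_nonneg _ _), Metric.tendsto_atTop]
  intro ε hε
  obtain ⟨u, hu⟩ := exists_nat_gt y
  obtain ⟨K, hK, hcl⟩ := clus hRH u (η := ε / 2) (by positivity)
  refine ⟨K, fun n hn => ?_⟩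
  have hlow : ∑ i ∈ Finset.range n, B (i + 1) y ≤ (A' y - 1) / 2 ∧
      (A' y - 1) / 2 ≤ ∑ i ∈ Finset.range n, B (i + 1) y + ε / 2 := by
    have t1 : Tendsto (fun k => ∑ i ∈ Finset.range n, Bt (τ k) (i + 1) y) g
        (𝓝 (∑ i ∈ Finset.range n, B (i + 1) y)) := tendsto_finsetSum _ fun i _ => h.hB _ _
    have t2 : Tendsto (fun k => (Aa (τ k) y - (NZ (τ k) : ℝ) / nT (τ k)) / 2) g
        (𝓝 ((A' y - 1) / 2)) := ((h.hA y).sub h.par.NZ_lim).div_const 2
    have t3 : Tendsto (fun k => ∑ i ∈ Finset.range n, Bt (τ k) (i + 1) y +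
        (NZ (τ k) : ℝ) / nT (τ k) * (ε / 2)) g
        (𝓝 (∑ i ∈ Finset.range n, B (i + 1) y + 1 * (ε / 2))) :=
      t1.add (h.par.NZ_lim.mul_const _)
    rw [one_mul] at t3
    have hbig : ∀ᶠ k in g, n + 1 ≤ NZ (τ k) := by
      filter_upwards [h.par.le, h.par.ν_atTop.eventually (eventually_ge_atTop (n + 1))] with k a1 a2
      exact a2.trans a1
    have hsplit : ∀ᶠ k in g, (Aa (τ k) y - (NZ (τ k) : ℝ) / nT (τ k)) / 2 =
        ∑ i ∈ Finset.range n, Bt (τ k) (i + 1) y +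
          ∑ r ∈ Finset.Ico (n + 1) (NZ (τ k)), Bt (τ k) r y := by
      filter_upwards [hbig, h.par.ten] with N h1 h2
      rw [Aa_idx hRH h2 hy, ← Finset.sum_Ico_consecutive _ (by omega : 1 ≤ n + 1) h1,
        Finset.sum_Ico_eq_sum_range, Nat.add_sub_cancel]
      have e : ∑ k ∈ Finset.range n, Bt (τ N) (1 + k) y =
          ∑ i ∈ Finset.range n, Bt (τ N) (i + 1) y :=
        Finset.sum_congr rfl fun k _ => by rw [add_comm]
      rw [e]
      ring
    constructor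
    · refine le_of_tendsto_of_tendsto t1 t2 ?_
      filter_upwards [hsplit, h.par.ten] with N h1 h2
      rw [h1]
      have : 0 ≤ ∑ r ∈ Finset.Ico (n + 1) (NZ (τ N)), Bt (τ N) r y :=
        Finset.sum_nonneg fun r _ => Bt_nonneg h2 _ _
      linarith
    · refine le_of_tendsto_of_tendsto t2 t3 ?_
      filter_upwards [hsplit, h.par.ten] with N h1 h2
      rw [h1]
      obtain ⟨a, ha1, ha2, ha3⟩ := hcl _ h2
      have h3 := nT_pos h2
      have h4 : ∑ r ∈ Finset.Ico (n + 1) (NZ (τ N)), Bt (τ N) r y ≤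
          ∑ r ∈ Finset.Ico (n + 1) (NZ (τ N)), (NZ (τ N) : ℝ) / nT (τ N) * a r := by
        refine Finset.sum_le_sum fun r hr => ?_
        rw [Finset.mem_Ico] at hr
        have h5 := ha1 r (by omega)
        unfold Bt
        rw [div_mul_eq_mul_div]
        refine div_le_div_of_nonneg_right (le_trans ?_ h5) h3.le
        exact_mod_cast Finset.card_le_card fun m hm => by
          rw [Finset.mem_filter] at hm ⊢
          exact ⟨hm.1, lt_of_le_of_lt hm.2 hu⟩
      rw [← Finset.mul_sum] at h4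
      have h5 : ∑ r ∈ Finset.Ico (n + 1) (NZ (τ N)), a r ≤ ε / 2 :=
        (Finset.sum_le_sum_of_subset_of_nonneg (Finset.Ico_subset_Ico_left (by omega))
          fun i _ _ => ha2 i).trans (ha3 _)
      have h6 : 0 ≤ (NZ (τ N) : ℝ) / nT (τ N) := by positivity
      have h7 := mul_le_mul_of_nonneg_left h5 h6
      linarith
  rw [Real.dist_eq, abs_sub_comm, abs_of_nonneg (by linarith)]
  linarith

/-- Montgomery's theorem for the pair counting function -/
lemma mont_Aa (hRH : RiemannHypothesis) {κ : ℝ} (hκ : 0 < κ) (hκ1 : κ < 1) {K : ℝ → ℝ}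
    (hK : TK κ K) {d : ℝ} (hd : 0 < d) :
    Tendsto (fun T => ∫ y, Aa T y * (ct K (y + d) - ct K (y - d))) atTop
        (𝓝 (∫ y, AG y * (ct K (y + d) - ct K (y - d)))) := by
  have h1 := (mont_lim hRH (NTf_fav hK hκ hκ1 hd)).neg
  rw [AG_mont hK hκ1 hd]
  refine h1.congr fun T => ?_
  rw [Aa_int hK hd]
  rw [div_eq_inv_mul]

/-- the limit of the pair counting function is admissible -/
lemma Lims.adm (hRH : RiemannHypothesis) {κ : ℝ} (hκ : 0 < κ) (hκ1 : κ < 1) {g : Ultrafilter ι}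
    (h : Lims (g : Filter ι) τ ν b B A') {C0 T0 : ℝ} (hT0 : 20 ≤ T0)
    (hlin : ∀ T : ℝ, T0 ≤ T → ∀ y, |Aa T y| ≤ C0 * (1 + |y|)) : Adm κ C0 A' where
  mono := by
    intro x y hxy
    refine le_of_tendsto_of_tendsto (h.hA x) (h.hA y) ?_
    filter_upwards [h.par.ten] with N hN
    exact Aa_mono (by linarith) hxy
  neg := by
    intro y hy
    refine tendsto_nhds_unique (h.hA y) ?_
    have : (fun i => Aa (τ i) y) = fun _ => 0 := funext fun N => Aa_neg _ y hy
    rw [this]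
    exact tendsto_const_nhds
  lin := by
    intro y
    refine le_of_tendsto (h.hA y).abs ?_
    filter_upwards [h.par.τ_lim.eventually (eventually_ge_atTop T0)] with N hN
    exact hlin _ hN y
  mont := by
    intro K hK d hd
    have hmono : Monotone A' := by
      intro x y hxy
      refine le_of_tendsto_of_tendsto (h.hA x) (h.hA y) ?_
      filter_upwards [h.par.ten] with N hN
      exact Aa_mono (by linarith) hxy
    obtain ⟨D, hD⟩ := test_decay hK d
    have hu : ((g.map τ : Ultrafilter ℝ) : Filter ℝ) ≤ atTop := h.par.τ_lim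
    refine lim_int (T0 := T0) (C := 2 * C0) (fun T hT => Aa_mono (by linarith))
      (fun T hT => two_sq (hlin T hT)) ?_ hD (mont_Aa hRH hκ hκ1 hK hd) hu hmono ?_
    · exact (hK.ct_cont.measurable.comp (by fun_prop)).sub
        (hK.ct_cont.measurable.comp (by fun_prop))
    · intro y
      exact tendsto_map'_iff.2 (h.hA y)

end

end Q241.NN
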