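import Pool.Agent.Q241.NN.D

/-! # The laws of the further neighbours determine the law of the nearest neighbour -/

set_option autoImplicit false

open MeasureTheory Filter Topology Set

namespace Q241.NN

open Pool.Agent.Y744 Pool.Agent.Y763.AH
open Pool.Agent.Y749.Rig (nT nT_pos ZZ mm mem_ZZ zs_im_pos one_lt_log)
open SG (ord NZ)

lemma dl_sum (r n : ℕ) : dl r n = ∑ i ∈ Finset.range r, LG.dlt (n + i) := by
  induction r with
  | zero => simp [dl]
  | succ r ih =>
    rw [Finset.sum_range_succ, ← ih]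
    unfold dl LG.dlt
    rw [← add_assoc]
    ring

/-- the tail of the law of the `r`-th neighbours -/
lemma tail_count (hRH : RiemannHypothesis) : ∃ c y0 : ℝ, 0 < c ∧ 1 < y0 ∧ ∀ r : ℕ, 1 ≤ r →
    ∀ N : ℕ, 1 ≤ N → ∀ s : ℝ, r * y0 ≤ s →
    (N : ℝ) * (1 - Dr r N s) ≤ r * ((N + r) * Real.exp (-(c / r * s))) := by
  classical
  obtain ⟨c, y0, hc, hy0, h⟩ := LG.gap_uniform (H177.Lat.rhs_of hRH)
  refine ⟨c, max y0 (Real.exp 1), hc, lt_max_of_lt_left hy0, fun r hr N hN s hs => ?_⟩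
  have hr0 : (0 : ℝ) < r := by exact_mod_cast hr
  have hN0 : (0 : ℝ) < N := by exact_mod_cast hN
  have hsr : max y0 (Real.exp 1) ≤ s / r := by
    rw [le_div_iff₀ hr0, mul_comm]
    exact hs
  have h1 := (le_max_left _ _).trans hsr
  have h2 := (le_max_right _ _).trans hsr
  have hlog : 1 ≤ Real.log (s / r) := by
    rw [Real.le_log_iff_exp_le (lt_of_lt_of_le (Real.exp_pos _) h2)]
    exact h2
  have hsub : (Finset.Ioc 0 N).filter (fun n => ¬ dl r n ≤ s) ⊆
      (Finset.range r).biUnion (fun i => (Finset.Ioc 0 N).filter (fun n => s / r ≤ LG.dlt (n + i))) := by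
    intro n hn
    rw [Finset.mem_filter] at hn
    obtain ⟨k1, k2⟩ := hn
    rw [Finset.mem_biUnion]
    by_contra hc
    push Not at hc k2
    have h3 : ∀ i ∈ Finset.range r, LG.dlt (n + i) ≤ s / r := by
      intro i hi
      by_contra hc2
      push Not at hc2
      exact hc i hi (Finset.mem_filter.2 ⟨k1, hc2.le⟩)
    have h4 := Finset.sum_le_sum h3
    rw [← dl_sum, Finset.sum_const, Finset.card_range, nsmul_eq_mul, mul_div_cancel₀ _ hr0.ne'] at h4
    linarith
  have hcard := (Finset.card_le_card hsub).trans Finset.card_biUnion_le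
  have heach : ∀ i ∈ Finset.range r,
      (((Finset.Ioc 0 N).filter (fun n => s / r ≤ LG.dlt (n + i))).card : ℝ) ≤
        (N + r) * Real.exp (-(c / r * s)) := by
    intro i hi
    rw [Finset.mem_range] at hi
    have h3 := h (N + r) (by omega) (s / r) h1
    have h4 : (((Finset.Ioc 0 N).filter (fun n => s / r ≤ LG.dlt (n + i))).card : ℝ) ≤
        ({n : ℕ | 1 ≤ n ∧ n ≤ N + r ∧ s / r ≤ LG.dlt n}.ncard : ℝ) := by
      have hfin : {n : ℕ | 1 ≤ n ∧ n ≤ N + r ∧ s / r ≤ LG.dlt n}.Finite :=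
        (Set.finite_Icc 1 (N + r)).subset fun m hm => ⟨hm.1, hm.2.1⟩
      have h5 : (((Finset.Ioc 0 N).filter (fun n => s / r ≤ LG.dlt (n + i))).image
          (fun n => n + i) : Set ℕ) ⊆ {n : ℕ | 1 ≤ n ∧ n ≤ N + r ∧ s / r ≤ LG.dlt n} := by
        intro m hm
        rw [Finset.mem_coe, Finset.mem_image] at hm
        obtain ⟨n, hn, rfl⟩ := hm
        rw [Finset.mem_filter, Finset.mem_Ioc] at hn
        exact ⟨by omega, by omega, hn.2⟩
      have h6 := Set.ncard_le_ncard h5 hfin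
      rw [Set.ncard_coe_finset, Finset.card_image_of_injective _ (add_left_injective i)] at h6
      exact_mod_cast h6
    refine h4.trans (h3.trans ?_)
    push_cast
    refine mul_le_mul_of_nonneg_left ?_ (by positivity)
    rw [Real.exp_le_exp]
    have h7 : 0 ≤ s / r := (Real.exp_pos _).le.trans h2
    have h8 : c * (s / r) ≤ c * (s / r) * Real.log (s / r) :=
      le_mul_of_one_le_right (by positivity) hlog
    have h9 : c / r * s = c * (s / r) := by ring
    rw [h9]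
    nlinarith
  have hsum : ∑ i ∈ Finset.range r,
      (((Finset.Ioc 0 N).filter (fun n => s / r ≤ LG.dlt (n + i))).card : ℝ) ≤
      r * ((N + r) * Real.exp (-(c / r * s))) := by
    refine (Finset.sum_le_sum heach).trans (le_of_eq ?_)
    rw [Finset.sum_const, Finset.card_range, nsmul_eq_mul]
  have htot := Finset.card_filter_add_card_filter_not (s := Finset.Ioc 0 N) (fun n => dl r n ≤ s)
  rw [Nat.card_Ioc, Nat.sub_zero] at htot
  have hcr : (((Finset.Ioc 0 N).filter (fun n => ¬ dl r n ≤ s)).card : ℝ) ≤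
      ∑ i ∈ Finset.range r,
      (((Finset.Ioc 0 N).filter (fun n => s / r ≤ LG.dlt (n + i))).card : ℝ) := by
    exact_mod_cast hcard
  have htr : (((Finset.Ioc 0 N).filter (fun n => dl r n ≤ s)).card : ℝ) +
      (((Finset.Ioc 0 N).filter (fun n => ¬ dl r n ≤ s)).card : ℝ) = N := by
    exact_mod_cast htot
  have e : (N : ℝ) * (1 - Dr r N s) = N -
      (((Finset.Ioc 0 N).filter (fun n => dl r n ≤ s)).card : ℝ) := by
    unfold Dr
    field_simp
  rw [e]
  linarith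

/-- exponential tails of the limit laws, uniformly for finitely many `r` -/
lemma tail_R (hRH : RiemannHypothesis) (R : Finset ℕ) : ∃ C c a0 : ℝ, 0 ≤ C ∧ 0 < c ∧ 0 < a0 ∧
    ∀ (ι : Type) (g : Filter ι) (τ : ι → ℝ) (ν : ι → ℕ) (b B : ℕ → ℝ → ℝ) (A' : ℝ → ℝ) [NeBot g],
      Lims g τ ν b B A' →
      ∀ r ∈ R, 1 ≤ r → ∀ s, a0 ≤ s → 1 - b r s ≤ C * Real.exp (-(c * s)) := by
  obtain ⟨c, y0, hc, hy0, h⟩ := tail_count hRH
  set M : ℕ := R.sup id + 1 with hM
  have hM0 : (0 : ℝ) < M := by positivity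
  refine ⟨M, c / M, M * y0, hM0.le, by positivity, by positivity, ?_⟩
  intro ι g τ ν b B A' hne hl r hr hr1 s hs
  have hr0 : (0 : ℝ) < r := by exact_mod_cast hr1
  have hrM : (r : ℝ) ≤ M := by
    have h1 : r ≤ R.sup id := Finset.le_sup (f := id) hr
    exact_mod_cast h1.trans (Nat.le_succ _)
  have hs0 : 0 ≤ s := le_trans (by positivity) hs
  have h1 : Tendsto (fun i => 1 - Dr r (ν i) s) g (𝓝 (1 - b r s)) :=
    tendsto_const_nhds.sub (hl.hb r s)
  have h2 : Tendsto (fun i => (r : ℝ) * ((1 + r / (ν i : ℝ)) * Real.exp (-(c / r * s)))) g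
      (𝓝 (r * ((1 + 0) * Real.exp (-(c / r * s))))) := by
    refine Tendsto.const_mul _ (Tendsto.mul_const _ (tendsto_const_nhds.add ?_))
    exact (tendsto_const_div_atTop_nhds_zero_nat (r : ℝ)).comp hl.par.ν_atTop
  have h3 := le_of_tendsto_of_tendsto h1 h2 (by
    filter_upwards [hl.par.ν_atTop.eventually (eventually_ge_atTop 1)] with i hN
    have hN0 : (0 : ℝ) < (ν i : ℝ) := by exact_mod_cast hN
    have h4 := h r hr1 (ν i) hN s (le_trans (by
      exact mul_le_mul_of_nonneg_right hrM (by linarith)) hs)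
    have h5 : (ν i : ℝ) * (1 - Dr r (ν i) s) ≤ ν i * (r * ((1 + r / (ν i : ℝ)) *
        Real.exp (-(c / r * s)))) := by
      refine h4.trans (le_of_eq ?_)
      field_simp
    exact le_of_mul_le_mul_left h5 hN0)
  rw [add_zero, one_mul] at h3
  refine h3.trans (mul_le_mul hrM ?_ (Real.exp_pos _).le hM0.le)
  rw [Real.exp_le_exp, neg_le_neg_iff]
  refine mul_le_mul_of_nonneg_right ?_ hs0
  exact div_le_div_of_nonneg_left hc.le hr0 hrM

lemma diff_sum {R : Finset ℕ} (hR : ∀ r ∈ R, 1 ≤ r) {f : ℕ → ℝ} {S : ℝ}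
    (h : HasSum (fun r => f (r + 1)) S) (h0 : ∀ r, 1 ≤ r → r ∉ R → f r = 0) :
    S = ∑ r ∈ R, f r := by
  classical
  have hinj : Set.InjOn (fun r : ℕ => r - 1) (R : Set ℕ) := by
    intro a ha b hb hab
    have h1 := hR a ha
    have h2 := hR b hb
    have hab2 : a - 1 = b - 1 := hab
    omega
  have h1 : HasSum (fun r => f (r + 1)) (∑ r ∈ R.image (fun r => r - 1), f (r + 1)) := by
    refine hasSum_sum_of_ne_finset_zero fun r hr => h0 _ (by omega) fun hc => hr ?_
    rw [Finset.mem_image]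
    exact ⟨r + 1, hc, by omega⟩
  rw [h.unique h1, Finset.sum_image hinj]
  refine Finset.sum_congr rfl fun r hr => ?_
  have := hR r hr
  congr 1
  omega

/-- **the core**: comparison of the limits along an ultrafilter with a second system -/
theorem core (hRH : RiemannHypothesis) {R : Finset ℕ} (hR : ∀ r ∈ R, 1 ≤ r) {ι : Type}
    {τ : ι → ℝ} {ν : ι → ℕ} {g : Ultrafilter ι} {b B : ℕ → ℝ → ℝ} {A' : ℝ → ℝ}
    (h : Lims (g : Filter ι) τ ν b B A') {C2 : ℝ} {A2 : ℝ → ℝ} (hA2 : Adm (1 / 2) C2 A2)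
    {f : ℕ → ℝ → ℝ} (hf : ∀ᵐ x : ℝ, 0 < x → HasSum (fun r => f (r + 1) x) ((A2 x - 1) / 2))
    (hle : ∀ᵐ x : ℝ, 0 < x → ∀ r ∈ R, f r x ≤ 1)
    (heq : ∀ᵐ x : ℝ, 0 < x → ∀ r, 1 ≤ r → r ∉ R → b r x = f r x) :
    ∀ᵐ x : ℝ, 0 < x → ∑ r ∈ R, b r x = ∑ r ∈ R, f r x := by
  obtain ⟨C0, T0, hT0, hlin⟩ := Q241.HF.Aa_linU
  obtain ⟨C, c, a0, hC, hc, ha0, htail⟩ := tail_R hRH R
  have hadm := h.adm hRH (κ := 1 / 2) (by norm_num) (by norm_num) hT0 hlin
  have hdiff : ∀ᵐ x : ℝ, 0 < x → A' x - A2 x = 2 * ∑ r ∈ R, (b r x - f r x) := by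
    filter_upwards [hf, heq, h.eq_ae] with x h1 h2 h3 hx
    have h4 := (h.hasSum hRH hx.le).sub (h1 hx)
    have h5 := diff_sum (R := R) hR (f := fun r => B r x - f r x) h4 fun r hr1 hr2 => by
      rw [h3 hx r, h2 hx r hr1 hr2, sub_self]
    have h6 : ∑ r ∈ R, (B r x - f r x) = ∑ r ∈ R, (b r x - f r x) :=
      Finset.sum_congr rfl fun r _ => by rw [h3 hx r]
    rw [h6] at h5
    linarith
  have key := two_rigid (κ := 1 / 2) (by norm_num) hadm hA2 (C := 2 * (R.card * C)) (c := c)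
    (a0 := a0) (by positivity) hc ha0 (by
      filter_upwards [hdiff, hle] with x h1 h2 hx
      have hx0 : 0 < x := ha0.trans_le hx
      rw [h1 hx0]
      have h3 : ∑ r ∈ R, (-(C * Real.exp (-(c * x)))) ≤ ∑ r ∈ R, (b r x - f r x) := by
        refine Finset.sum_le_sum fun r hr => ?_
        have h4 := htail ι g τ ν b B A' h r hr (hR r hr) x hx
        have h5 := h2 hx0 r hr
        linarith
      rw [Finset.sum_const, nsmul_eq_mul] at h3
      nlinarith)
  filter_upwards [hdiff, key] with x h1 h2 hx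
  have h3 := h1 hx
  rw [h2 hx, sub_self, Finset.sum_sub_distrib] at h3
  linarith

lemma AG_mono : Monotone AG := by
  intro a b hab
  unfold AG
  split_ifs with h1 h2 h2
  · exact le_rfl
  · push Not at h2
    have := gp_nonneg h2
    linarith
  · exact absurd (hab.trans_lt h2) h1
  · have := gp_mono hab
    linarith

lemma AG_adm {κ : ℝ} : Adm κ 2 AG where
  mono := AG_mono
  neg := fun y hy => by unfold AG; rw [if_pos hy]
  lin := Q241.HF.AG_lin
  mont := fun _ _ _ _ => rfl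

/-- convergence of distribution functions on `(0, ∞)` -/
def Conv (l : Filter ℕ) (D : ℕ → ℝ → ℝ) (G : ℝ → ℝ) : Prop :=
  ∀ s : ℝ, 0 < s → ContinuousAt G s → Tendsto (fun N => D N s) l (𝓝 (G s))

lemma mono_ae {f : ℕ → ℝ → ℝ} (hf : ∀ r, Monotone (f r)) : ∀ᵐ x : ℝ, ∀ r, ContinuousAt (f r) x := by
  rw [ae_all_iff]
  intro r
  filter_upwards [(hf r).countable_not_continuousAt.ae_notMem volume] with x hx
  by_contra hc
  exact hx hc

lemma conv_ae {R : Finset ℕ} {G : ℕ → ℝ → ℝ} (hG : ∀ r, Monotone (G r)) {l : Filter ℕ}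
    (hc : ∀ r, 1 ≤ r → r ∉ R → Conv l (Dr r) (G r)) {g : Filter ℕ} [NeBot g] (hgl : g ≤ l)
    {τ : ℕ → ℝ} {b B : ℕ → ℝ → ℝ} {A' : ℝ → ℝ} (h : Lims g τ (fun N => N) b B A') :
    ∀ᵐ x : ℝ, 0 < x → ∀ r, 1 ≤ r → r ∉ R → b r x = G r x := by
  filter_upwards [mono_ae hG] with x h1 hx r hr1 hr2
  exact tendsto_nhds_unique (h.hb r x) ((hc r hr1 hr2 x hx (h1 r)).mono_left hgl)

/-- two monotone functions that agree almost everywhere agree where the second is continuous -/
lemma eq_of_ae {h H : ℝ → ℝ} (hh : Monotone h) (he : ∀ᵐ x : ℝ, 0 < x → h x = H x) {s : ℝ}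
    (hs : 0 < s) (hc : ContinuousAt H s) : h s = H s := by
  have hd : Dense {x : ℝ | 0 < x → h x = H x} := Measure.dense_of_ae he
  apply le_antisymm
  · refine le_of_forall_pos_le_add fun ε hε => ?_
    obtain ⟨δ, hδ, hδ2⟩ := Metric.continuousAt_iff.1 hc ε hε
    obtain ⟨x, hx, hx2⟩ := hd.exists_between (show s < s + δ by linarith)
    have h1 := hx (by linarith [hx2.1])
    have h2 := hh hx2.1.le
    have h3 := hδ2 (show dist x s < δ by
      rw [Real.dist_eq, abs_of_pos (by linarith [hx2.1])]; linarith [hx2.2])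
    rw [Real.dist_eq] at h3
    have := (abs_lt.1 h3).2
    linarith
  · refine le_of_forall_pos_le_add fun ε hε => ?_
    obtain ⟨δ, hδ, hδ2⟩ := Metric.continuousAt_iff.1 hc ε hε
    obtain ⟨x, hx, hx2⟩ := hd.exists_between (show max 0 (s - δ) < s from max_lt hs (by linarith))
    have hx0 : 0 < x := lt_of_le_of_lt (le_max_left _ _) hx2.1
    have hx1 : s - δ < x := lt_of_le_of_lt (le_max_right _ _) hx2.1
    have h1 := hx hx0
    have h2 := hh hx2.2.le
    have h3 := hδ2 (show dist x s < δ by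
      rw [Real.dist_eq, abs_of_neg (by linarith [hx2.2])]; linarith)
    rw [Real.dist_eq] at h3
    have := (abs_lt.1 h3).1
    linarith

lemma sum_mono {R : Finset ℕ} {f : ℕ → ℝ → ℝ} (hf : ∀ r, Monotone (f r)) :
    Monotone fun s => ∑ r ∈ R, f r s := fun _ _ hab => Finset.sum_le_sum fun r _ => hf r hab

/-- **the laws of the other neighbours determine the sum of the laws of the neighbours in `R`** -/
theorem exist (hRH : RiemannHypothesis) {R : Finset ℕ} (hR : ∀ r ∈ R, 1 ≤ r) {G : ℕ → ℝ → ℝ}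
    (hG : ∀ r, Monotone (G r)) : ∃ H : ℝ → ℝ, Monotone H ∧ ∀ l : Filter ℕ, l ≤ atTop →
      (∀ r, 1 ≤ r → r ∉ R → Conv l (Dr r) (G r)) → Conv l (fun N s => ∑ r ∈ R, Dr r N s) H := by
  obtain ⟨C0, T0, hT0, hlin⟩ := Q241.HF.Aa_linU
  by_cases hex : ∃ g : Ultrafilter ℕ, (g : Filter ℕ) ≤ atTop ∧
      ∀ r, 1 ≤ r → r ∉ R → Conv (g : Filter ℕ) (Dr r) (G r)
  · obtain ⟨g0, hg0, hc0⟩ := hex
    obtain ⟨b0, B0, A0, h0⟩ := exists_lims g0 (par_ord.mono hg0)
    refine ⟨fun s => ∑ r ∈ R, b0 r s, sum_mono fun r => h0.b_mono r, fun l hl hc s hs hcont => ?_⟩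
    rw [tendsto_iff_ultrafilter]
    intro g hgl
    have hg : (g : Filter ℕ) ≤ atTop := hgl.trans hl
    obtain ⟨b, B, A', h⟩ := exists_lims g (par_ord.mono hg)
    have e1 := conv_ae hG hc hgl h
    have e0 := conv_ae hG hc0 le_rfl h0
    have e2 := h0.eq_ae
    have key := core hRH hR h (h0.adm hRH (κ := 1 / 2) (by norm_num) (by norm_num) hT0 hlin)
      (f := B0) (Eventually.of_forall fun x hx => h0.hasSum hRH hx.le)
      (Eventually.of_forall fun x _ r _ => h0.B_le r x) (by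
        filter_upwards [e0, e1, e2] with x h1 h2 h3 hx r hr1 hr2
        rw [h2 hx r hr1 hr2, h3 hx r, h1 hx r hr1 hr2])
    have key2 : ∀ᵐ x : ℝ, 0 < x → ∑ r ∈ R, b r x = ∑ r ∈ R, b0 r x := by
      filter_upwards [key, e2] with x h1 h2 hx
      rw [h1 hx]
      exact Finset.sum_congr rfl fun r _ => h2 hx r
    have h4 := eq_of_ae (sum_mono fun r => h.b_mono r) key2 hs hcont
    show Tendsto (fun N => ∑ r ∈ R, Dr r N s) (g : Filter ℕ) (𝓝 (∑ r ∈ R, b0 r s))
    rw [← h4]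
    exact tendsto_finsetSum _ fun r _ => h.hb r s
  · refine ⟨fun _ => 0, monotone_const, fun l hl hc s hs _ => ?_⟩
    rw [tendsto_iff_ultrafilter]
    intro g hgl
    exact absurd ⟨g, hgl.trans hl, fun r hr1 hr2 s hs hcont =>
      (hc r hr1 hr2 s hs hcont).mono_left hgl⟩ hex

/-- **identification of the limit** -/
theorem ident (hRH : RiemannHypothesis) {R : Finset ℕ} (hR : ∀ r ∈ R, 1 ≤ r) {G : ℕ → ℝ → ℝ}
    (hG : ∀ r, Monotone (G r)) (hle : ∀ r ∈ R, ∀ s, 0 < s → G r s ≤ 1)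
    (hsum : ∀ s, 0 < s → HasSum (fun r => G (r + 1) s) (gp s)) {l : Filter ℕ} (hl : l ≤ atTop)
    (hc : ∀ r, 1 ≤ r → r ∉ R → Conv l (Dr r) (G r)) :
    Conv l (fun N s => ∑ r ∈ R, Dr r N s) (fun s => ∑ r ∈ R, G r s) := by
  intro s hs hcont
  rw [tendsto_iff_ultrafilter]
  intro g hgl
  have hg : (g : Filter ℕ) ≤ atTop := hgl.trans hl
  obtain ⟨b, B, A', h⟩ := exists_lims g (par_ord.mono hg)
  have key := core hRH hR h AG_adm (f := G)
    (Eventually.of_forall fun x hx => by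
      have e : (AG x - 1) / 2 = gp x := by
        unfold AG
        rw [if_neg (by linarith)]
        ring
      rw [e]
      exact hsum x hx)
    (Eventually.of_forall fun x hx r hr => hle r hr x hx) (conv_ae hG hc hgl h)
  have h4 := eq_of_ae (sum_mono fun r => h.b_mono r) key hs hcont
  show Tendsto (fun N => ∑ r ∈ R, Dr r N s) (g : Filter ℕ) (𝓝 (∑ r ∈ R, G r s))
  rw [← h4]
  exact tendsto_finsetSum _ fun r _ => h.hb r s

end Q241.NN
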