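import Pool.Agent.Q241.NN.E

/-! # Low frequency sums over the pairs that are not neighbours -/

set_option autoImplicit false

open MeasureTheory Filter Topology Set

namespace Q241.NN

open Pool.Agent.Y744 Pool.Agent.Y763.AH
open Pool.Agent.Y749.Rig (nT nT_pos ZZ mm mem_ZZ zs_im_pos one_lt_log)
open SG (ord NZ)

/-- the derivative of the average -/
noncomputable def wv (K : ℝ → ℝ) (h y : ℝ) : ℝ := ct K (y + h) - ct K (y - h)

/-- the sum over the `r`-th neighbours -/
noncomputable def Sr (f : ℝ → ℝ) (T : ℝ) (r : ℕ) : ℝ :=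
  ∑ n ∈ Finset.Ioc 0 (NZ T - r), f (xx T r n)

/-- the sum over the pairs whose index difference is not in `R` -/
noncomputable def SFar (R : Finset ℕ) (f : ℝ → ℝ) (T : ℝ) : ℝ :=
  (∑ r ∈ Finset.Ico 1 (NZ T) \ R, Sr f T r) / nT T

/-- the counting function of the neighbours in `R` -/
noncomputable def SB (R : Finset ℕ) (T y : ℝ) : ℝ := ∑ r ∈ R, Bt T r y

variable {κ : ℝ} {K : ℝ → ℝ} {h : ℝ}

lemma Bt_neg {T : ℝ} (hT : 1 < T) (r : ℕ) {y : ℝ} (hy : y < 0) : Bt T r y = 0 := by
  classical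
  unfold Bt
  rw [Finset.card_eq_zero.2, Nat.cast_zero, zero_div]
  rw [Finset.filter_eq_empty_iff]
  intro n hn
  have := xx_nonneg hT (r := r) (Finset.mem_Ioc.1 hn).1
  linarith

lemma Sr_eq (hK : TK κ K) (hh : 0 < h) {T : ℝ} (hT : 10 ≤ T) (r : ℕ) :
    Sr (fav K h) T r / nT T = -∫ y, Bt T r y * wv K h y := by
  classical
  have hn := nT_pos hT
  have hw : Integrable (wv K h) := dfav_int hK h
  have hi : ∀ t : ℝ, Integrable ((Set.Ici t).indicator (wv K h)) := fun t =>
    hw.indicator measurableSet_Ici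
  have e1 : ∀ y, Bt T r y * wv K h y = (nT T)⁻¹ * ∑ n ∈ Finset.Ioc 0 (NZ T - r),
      (Set.Ici (xx T r n)).indicator (wv K h) y := by
    intro y
    unfold Bt
    rw [Finset.card_filter, div_eq_inv_mul, mul_assoc]
    congr 1
    push_cast
    rw [Finset.sum_mul]
    refine Finset.sum_congr rfl fun n _ => ?_
    by_cases hx : xx T r n ≤ y
    · rw [if_pos hx, Set.indicator_of_mem (show y ∈ Set.Ici (xx T r n) from hx), one_mul]
    · rw [if_neg hx, Set.indicator_of_notMem (show y ∉ Set.Ici (xx T r n) from hx), zero_mul]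
  simp_rw [e1]
  rw [integral_const_mul, integral_finsetSum _ fun n _ => hi _]
  unfold Sr
  rw [div_eq_inv_mul, ← mul_neg, ← Finset.sum_neg_distrib]
  congr 1
  refine Finset.sum_congr rfl fun n _ => ?_
  rw [integral_indicator measurableSet_Ici, integral_Ici_eq_integral_Ioi]
  have := tail_int hK hh (xx T r n)
  unfold wv
  rw [this, neg_neg]

/-- all pairs: Montgomery's theorem -/
lemma tot_lim (hRH : RiemannHypothesis) (hκ : 0 < κ) (hκ1 : κ < 1) (hK : TK κ K) (hh : 0 < h) :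
    Tendsto (fun T => (∑ r ∈ Finset.Ico 1 (NZ T), Sr (fav K h) T r) / nT T) atTop
      (𝓝 (∫ y in Ioi (0 : ℝ), fav K h y * gd y)) := by
  have h1 := mont_lim hRH (NTf_fav hK hκ hκ1 hh)
  rw [mont_fav hK hκ1 hh] at h1
  have hgd : ∀ y, gd (-y) = gd y := by
    intro y
    unfold gd
    rw [mul_neg, Real.sinc_neg]
  have e0 : ∫ y, fav K h y * gd y = 2 * ∫ y in Ioi (0 : ℝ), fav K h y * gd y := by
    rw [← integral_comp_abs (f := fun y => fav K h y * gd y)]
    refine integral_congr_ae (Eventually.of_forall fun y => ?_)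
    show fav K h y * gd y = fav K h |y| * gd |y|
    rcases abs_cases y with ⟨h1, _⟩ | ⟨h1, _⟩
    · rw [h1]
    · rw [h1, fav_even, hgd]
  rw [e0] at h1
  have h2 := (h1.sub (NZ_lim.mul_const (fav K h 0))).div_const 2
  have e1 : (fav K h 0 + 2 * (∫ y in Ioi (0 : ℝ), fav K h y * gd y) - 1 * fav K h 0) / 2 =
      ∫ y in Ioi (0 : ℝ), fav K h y * gd y := by ring
  rw [e1] at h2
  refine h2.congr' ?_
  filter_upwards [eventually_ge_atTop 10] with T hT
  have hn := nT_pos hT
  have hX : Xf T = nT T := rfl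
  have e2 : Q2 (fav K h) T (Real.log T) = ∑ s ∈ ZZ T, ∑ s' ∈ ZZ T, mm s * mm s' *
      (fun a b : ℝ => fav K h ((a - b) * Real.log T / (2 * Real.pi))) s.im s'.im := by
    unfold Q2 QS
    rw [Zt_eq]
    rfl
  have e3 := sum_idx2 hRH T (fun a b : ℝ => fav K h ((a - b) * Real.log T / (2 * Real.pi)))
  have hsymm : ∀ n n' : ℕ, fav K h ((ord n - ord n') * Real.log T / (2 * Real.pi)) =
      fav K h ((ord n' - ord n) * Real.log T / (2 * Real.pi)) := by
    intro n n'
    rw [← fav_even]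
    congr 1
    ring
  have e4 := full_sum (fun n n' => fav K h ((ord n - ord n') * Real.log T / (2 * Real.pi)))
    hsymm (NZ T)
  have e5 : ∑ n ∈ Finset.Ioc 0 (NZ T), fav K h ((ord n - ord n) * Real.log T / (2 * Real.pi)) =
      NZ T * fav K h 0 := by
    rw [Finset.sum_congr rfl fun n _ => by rw [sub_self, zero_mul, zero_div]]
    simp
  have e6 : PS (fun n n' => fav K h ((ord n - ord n') * Real.log T / (2 * Real.pi))) (NZ T) =
      ∑ r ∈ Finset.Ico 1 (NZ T), Sr (fav K h) T r := by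
    unfold PS Sr
    refine Finset.sum_congr rfl fun r _ => Finset.sum_congr rfl fun n _ => ?_
    exact hsymm n (n + r)
  rw [e2, e3, e4, e5, e6, hX]
  field_simp
  ring

lemma SB_int (R : Finset ℕ) (hK : TK κ K) {T : ℝ} (hT : 10 ≤ T) :
    ∫ y, SB R T y * wv K h y = ∑ r ∈ R, ∫ y, Bt T r y * wv K h y := by
  rw [← integral_finsetSum]
  · refine integral_congr_ae (Eventually.of_forall fun y => ?_)
    show SB R T y * wv K h y = _
    unfold SB
    rw [Finset.sum_mul]
  · intro r _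
    have hw : Integrable (wv K h) := dfav_int hK h
    refine hw.bdd_mul (c := (NZ T : ℝ) / nT T) (Bt_mono hT r).measurable.aestronglyMeasurable ?_
    refine Eventually.of_forall fun y => ?_
    rw [Real.norm_eq_abs, abs_of_nonneg (Bt_nonneg hT r y)]
    exact Bt_le hT r y

/-- the sum over the other pairs in terms of the neighbours in `R` -/
lemma SFar_eq {R : Finset ℕ} (hR : ∀ r ∈ R, 1 ≤ r) (hK : TK κ K) (hh : 0 < h) :
    ∀ᶠ T : ℝ in atTop, SFar R (fav K h) T =
      (∑ r ∈ Finset.Ico 1 (NZ T), Sr (fav K h) T r) / nT T + ∫ y, SB R T y * wv K h y := by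
  have h1 := par_id.ν_atTop.eventually (eventually_gt_atTop (R.sup id))
  filter_upwards [h1, eventually_ge_atTop 10] with T h2 h3
  have hsub : R ⊆ Finset.Ico 1 (NZ T) := by
    intro r hr
    rw [Finset.mem_Ico]
    exact ⟨hR r hr, lt_of_le_of_lt (Finset.le_sup (f := id) hr) h2⟩
  have h4 := Finset.sum_sdiff (f := fun r => Sr (fav K h) T r) hsub
  have h5 : ∫ y, SB R T y * wv K h y = -((∑ r ∈ R, Sr (fav K h) T r) / nT T) := by
    rw [SB_int R hK h3, Finset.sum_div, ← Finset.sum_neg_distrib]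
    refine Finset.sum_congr rfl fun r _ => ?_
    rw [Sr_eq hK hh h3, neg_neg]
  unfold SFar
  rw [h5, ← h4]
  field_simp
  ring

lemma SFar_iff (hRH : RiemannHypothesis) (hκ : 0 < κ) (hκ1 : κ < 1) {R : Finset ℕ}
    (hR : ∀ r ∈ R, 1 ≤ r) (hK : TK κ K) (hh : 0 < h) (I : ℝ) :
    Tendsto (SFar R (fav K h)) atTop (𝓝 ((∫ y in Ioi (0 : ℝ), fav K h y * gd y) + I)) ↔
      Tendsto (fun T => ∫ y, SB R T y * wv K h y) atTop (𝓝 I) := by
  have h1 := tot_lim hRH hκ hκ1 hK hh
  have h2 := SFar_eq hR hK hh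
  constructor
  · intro h3
    have h4 := h3.sub h1
    rw [add_sub_cancel_left] at h4
    refine h4.congr' ?_
    filter_upwards [h2] with T hT
    rw [hT]
    ring
  · intro h3
    refine (h1.add h3).congr' ?_
    filter_upwards [h2] with T hT
    rw [hT]

lemma SB_mono (R : Finset ℕ) {T : ℝ} (hT : 10 ≤ T) : Monotone (SB R T) := fun _ _ hab =>
  Finset.sum_le_sum fun r _ => Bt_mono hT r hab

lemma SB_bound (R : Finset ℕ) : ∃ T0 : ℝ, 10 ≤ T0 ∧ ∀ T : ℝ, T0 ≤ T → ∀ y,
    |SB R T y| ≤ 2 * R.card := by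
  obtain ⟨T1, hT1⟩ := eventually_atTop.1 (par_id.NZ_le2)
  refine ⟨max T1 10, le_max_right _ _, fun T hT y => ?_⟩
  have h1 := hT1 T ((le_max_left _ _).trans hT)
  have h2 : 10 ≤ T := (le_max_right _ _).trans hT
  unfold SB
  rw [abs_of_nonneg (Finset.sum_nonneg fun r _ => Bt_nonneg h2 r y)]
  have h3 : ∑ r ∈ R, Bt T r y ≤ ∑ r ∈ R, (2 : ℝ) :=
    Finset.sum_le_sum fun r _ => (Bt_le h2 r y).trans h1
  rw [Finset.sum_const, nsmul_eq_mul] at h3
  linarith

/-- the limit of the integral along an ultrafilter -/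
lemma lim_SB {R : Finset ℕ} (hK : TK κ K) {I : ℝ}
    (hI : Tendsto (fun T => ∫ y, SB R T y * wv K h y) atTop (𝓝 I)) {ι : Type} {τ : ι → ℝ}
    {ν : ι → ℕ} {g : Ultrafilter ι} {b B : ℕ → ℝ → ℝ} {A' : ℝ → ℝ}
    (hL : Lims (g : Filter ι) τ ν b B A') : ∫ y, (∑ r ∈ R, B r y) * wv K h y = I := by
  obtain ⟨T0, hT0, hb⟩ := SB_bound R
  obtain ⟨D, hD⟩ := test_decay hK h
  have hu : ((g.map τ : Ultrafilter ℝ) : Filter ℝ) ≤ atTop := hL.par.τ_lim
  refine lim_int (A := SB R) (T0 := T0) (C := 2 * R.card) (fun T hT => SB_mono R (by linarith))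
    (fun T hT y => (hb T hT y).trans ?_) (w := wv K h) ?_ hD hI hu
    (sum_mono fun r => hL.B_mono r) ?_
  · nlinarith [sq_nonneg y, (Nat.cast_nonneg R.card : (0 : ℝ) ≤ R.card),
      mul_nonneg (Nat.cast_nonneg R.card : (0 : ℝ) ≤ R.card) (sq_nonneg y)]
  · exact (hK.ct_cont.measurable.comp (by fun_prop)).sub
      (hK.ct_cont.measurable.comp (by fun_prop))
  · intro y
    refine tendsto_map'_iff.2 ?_
    exact tendsto_finsetSum _ fun r _ => hL.hB r y

lemma Lims.B_neg {ι : Type} {τ : ι → ℝ} {ν : ι → ℕ} {g : Filter ι} [NeBot g]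
    {b B : ℕ → ℝ → ℝ} {A' : ℝ → ℝ} (hL : Lims g τ ν b B A') (r : ℕ) {y : ℝ} (hy : y < 0) :
    B r y = 0 := by
  refine tendsto_nhds_unique (hL.hB r y) (tendsto_const_nhds.congr' ?_)
  filter_upwards [hL.par.ten] with i hi
  exact (Bt_neg (by linarith) r hy).symm

/-- **the neighbours in `R` are determined by the low frequencies** -/
theorem back (hRH : RiemannHypothesis) (hκ : 0 < κ) {R : Finset ℕ} (hR : ∀ r ∈ R, 1 ≤ r)
    {A2 : ℝ → ℝ} {C2 : ℝ} (m2 : Measurable A2) (n2 : ∀ y, y < 0 → A2 y = 0)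
    (l2 : ∀ y, |A2 y| ≤ C2 * (1 + |y|)) (hle : ∀ᵐ x : ℝ, 0 < x → A2 x ≤ R.card)
    (hI : ∀ K, TK κ K → ∀ h, 0 < h → Tendsto (fun T => ∫ y, SB R T y * wv K h y) atTop
      (𝓝 (∫ y, A2 y * wv K h y))) {ι : Type} {τ : ι → ℝ}
    {ν : ι → ℕ} {g : Ultrafilter ι} {b B : ℕ → ℝ → ℝ} {A' : ℝ → ℝ}
    (hL : Lims (g : Filter ι) τ ν b B A') : ∀ᵐ x : ℝ, 0 < x → ∑ r ∈ R, b r x = A2 x := by
  obtain ⟨C, c, a0, hC, hc, ha0, htail⟩ := tail_R hRH R
  have hB1 : ∀ y, |∑ r ∈ R, B r y| ≤ R.card * (1 + |y|) := by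
    intro y
    rw [abs_of_nonneg (Finset.sum_nonneg fun r _ => hL.B_nonneg r y)]
    have h3 : ∑ r ∈ R, B r y ≤ ∑ r ∈ R, (1 : ℝ) := Finset.sum_le_sum fun r _ => hL.B_le r y
    rw [Finset.sum_const, nsmul_eq_mul, mul_one] at h3
    nlinarith [mul_nonneg (Nat.cast_nonneg R.card : (0 : ℝ) ≤ R.card) (abs_nonneg y)]
  have key := two_rigid' (κ := κ) hκ (A1 := fun y => ∑ r ∈ R, B r y)
    (sum_mono fun r => hL.B_mono r).measurable m2
    (fun y hy => Finset.sum_eq_zero fun r _ => hL.B_neg r hy) n2 hB1 l2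
    (fun K hK h hh => lim_SB hK (hI K hK h hh) hL) (C := R.card * C) (c := c) (a0 := a0)
    (by positivity) hc ha0 (by
      filter_upwards [hL.eq_ae, hle] with x h1 h2 hx
      have hx0 : 0 < x := ha0.trans_le hx
      have h3 : ∑ r ∈ R, (1 - C * Real.exp (-(c * x))) ≤ ∑ r ∈ R, B r x := by
        refine Finset.sum_le_sum fun r hr => ?_
        rw [h1 hx0 r]
        have h4 := htail ι g τ ν b B A' hL r hr (hR r hr) x hx
        linarith
      rw [Finset.sum_const, nsmul_eq_mul] at h3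
      have := h2 hx0
      nlinarith)
  filter_upwards [key, hL.eq_ae] with x h1 h2 hx
  rw [← h1 hx]
  exact Finset.sum_congr rfl fun r _ => (h2 hx r).symm

/-- convergence of the laws gives convergence of the counting functions -/
lemma fwd {R : Finset ℕ} {H : ℝ → ℝ} (hH : Monotone H)
    (hc : Conv atTop (fun N s => ∑ r ∈ R, Dr r N s) H) {y : ℝ} (hy : 0 < y)
    (hcy : ContinuousAt H y) : Tendsto (fun T => SB R T y) atTop (𝓝 (H y)) := by
  rw [tendsto_iff_ultrafilter]
  intro g hg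
  obtain ⟨b, B, A', hL⟩ := exists_lims g (par_id.mono hg)
  have hd : Dense {x : ℝ | ContinuousAt H x} := by
    have : ∀ᵐ x : ℝ, ContinuousAt H x := by
      filter_upwards [hH.countable_not_continuousAt.ae_notMem volume] with x hx
      by_contra hc
      exact hx hc
    exact Measure.dense_of_ae this
  have hbH : ∀ x, 0 < x → ContinuousAt H x → ∑ r ∈ R, b r x = H x := by
    intro x hx hcx
    refine tendsto_nhds_unique (tendsto_finsetSum R fun r _ => hL.hb r x) ?_
    exact (hc x hx hcx).comp hL.par.ν_atTop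
  have h1 : ∑ r ∈ R, B r y = H y := by
    apply le_antisymm
    · refine le_of_forall_pos_le_add fun ε hε => ?_
      obtain ⟨δ, hδ, hδ2⟩ := Metric.continuousAt_iff.1 hcy ε hε
      obtain ⟨x, hx, hx2⟩ := hd.exists_between (show y < y + δ by linarith)
      have h2 : ∑ r ∈ R, B r y ≤ ∑ r ∈ R, b r x :=
        Finset.sum_le_sum fun r _ => hL.B_le_b r hy.le hx2.1
      rw [hbH x (by linarith [hx2.1]) hx] at h2
      have h3 := hδ2 (show dist x y < δ by
        rw [Real.dist_eq, abs_of_pos (by linarith [hx2.1])]; linarith [hx2.2])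
      rw [Real.dist_eq] at h3
      have := (abs_lt.1 h3).2
      linarith
    · refine le_of_forall_pos_le_add fun ε hε => ?_
      obtain ⟨δ, hδ, hδ2⟩ := Metric.continuousAt_iff.1 hcy ε hε
      obtain ⟨x, hx, hx2⟩ := hd.exists_between (show max 0 (y - δ) < y from max_lt hy (by linarith))
      have hx0 : 0 < x := lt_of_le_of_lt (le_max_left _ _) hx2.1
      have hx1 : y - δ < x := lt_of_le_of_lt (le_max_right _ _) hx2.1
      have h2 : ∑ r ∈ R, b r x ≤ ∑ r ∈ R, B r y :=
        Finset.sum_le_sum fun r _ => hL.b_le_B r hx0.le hx2.2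
      rw [hbH x hx0 hx] at h2
      have h3 := hδ2 (show dist x y < δ by
        rw [Real.dist_eq, abs_of_neg (by linarith [hx2.2])]; linarith)
      rw [Real.dist_eq] at h3
      have := (abs_lt.1 h3).1
      linarith
  rw [← h1]
  exact tendsto_finsetSum _ fun r _ => hL.hB r y

/-- convergence of the laws gives convergence of the integrals -/
lemma fwd_int {R : Finset ℕ} {H : ℝ → ℝ} (hH : Monotone H)
    (hc : Conv atTop (fun N s => ∑ r ∈ R, Dr r N s) H) (hK : TK κ K) (h : ℝ) :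
    Tendsto (fun T => ∫ y, SB R T y * wv K h y) atTop
      (𝓝 (∫ y, (if y < 0 then 0 else H y) * wv K h y)) := by
  obtain ⟨T0, hT0, hb⟩ := SB_bound R
  have hw : Integrable (wv K h) := dfav_int hK h
  refine tendsto_integral_filter_of_dominated_convergence
    (bound := fun y => 2 * R.card * |wv K h y|) ?_ ?_ (hw.abs.const_mul _) ?_
  · filter_upwards [eventually_ge_atTop 10] with T hT
    exact (SB_mono R hT).measurable.aestronglyMeasurable.mul hw.aestronglyMeasurable
  · filter_upwards [eventually_ge_atTop T0] with T hT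
    refine Eventually.of_forall fun y => ?_
    rw [norm_mul, Real.norm_eq_abs, Real.norm_eq_abs]
    exact mul_le_mul_of_nonneg_right (hb T hT y) (abs_nonneg _)
  · have hne : ∀ᵐ x : ℝ, x ≠ 0 := by
      rw [ae_iff]
      simp
    filter_upwards [hH.countable_not_continuousAt.ae_notMem volume, hne] with y h1 h2
    refine Tendsto.mul_const _ ?_
    split_ifs with h3
    · refine tendsto_const_nhds.congr' ?_
      filter_upwards [eventually_ge_atTop 10] with T hT
      unfold SB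
      exact (Finset.sum_eq_zero fun r _ => Bt_neg (by linarith) r h3).symm
    · refine fwd hH hc (lt_of_le_of_ne (not_lt.1 h3) (Ne.symm h2)) ?_
      by_contra hcc
      exact h1 hcc

end Q241.NN
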