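import Pool.Agent.Q241.NN.F

/-! # The equivalences -/

set_option autoImplicit false

open MeasureTheory Filter Topology Set

namespace Q241.NN

open Pool.Agent.Y744 Pool.Agent.Y763.AH
open Pool.Agent.Y749.Rig (nT nT_pos ZZ mm mem_ZZ zs_im_pos one_lt_log)
open SG (ord NZ)

/-- test functions: moving averages of band limited functions -/
def TF (κ : ℝ) (f : ℝ → ℝ) : Prop := ∃ K h, TK κ K ∧ 0 < h ∧ f = fav K h

variable {κ : ℝ}

/-- **existence of the limit law** -/
theorem exist_iff (hRH : RiemannHypothesis) (hκ : 0 < κ) (hκ1 : κ < 1) {R : Finset ℕ}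
    (hR : ∀ r ∈ R, 1 ≤ r) :
    (∃ H : ℝ → ℝ, Monotone H ∧ Conv atTop (fun N s => ∑ r ∈ R, Dr r N s) H) ↔
      ∀ f, TF κ f → ∃ L, Tendsto (SFar R f) atTop (𝓝 L) := by
  constructor
  · rintro ⟨H, hH, hc⟩ f ⟨K, h, hK, hh, rfl⟩
    exact ⟨_, (SFar_iff hRH hκ hκ1 hR hK hh _).2 (fwd_int hH hc hK h)⟩
  · intro hyp
    have hyp2 : ∀ K, TK κ K → ∀ h, 0 < h → ∃ I,
        Tendsto (fun T => ∫ y, SB R T y * wv K h y) atTop (𝓝 I) := by
      intro K hK h hh
      obtain ⟨L, hL⟩ := hyp _ ⟨K, h, hK, hh, rfl⟩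
      refine ⟨L - ∫ y in Ioi (0 : ℝ), fav K h y * gd y, (SFar_iff hRH hκ hκ1 hR hK hh _).1 ?_⟩
      rw [add_sub_cancel]
      exact hL
    obtain ⟨g0, hg0⟩ := Ultrafilter.exists_le (atTop : Filter ℕ)
    obtain ⟨b0, B0, A0, h0⟩ := exists_lims g0 (par_ord.mono hg0)
    refine ⟨fun s => ∑ r ∈ R, b0 r s, sum_mono fun r => h0.b_mono r, fun s hs hcont => ?_⟩
    rw [tendsto_iff_ultrafilter]
    intro g hg
    obtain ⟨b, B, A', hL⟩ := exists_lims g (par_ord.mono hg)
    have hI : ∀ K, TK κ K → ∀ h, 0 < h → Tendsto (fun T => ∫ y, SB R T y * wv K h y) atTop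
        (𝓝 (∫ y, (∑ r ∈ R, B0 r y) * wv K h y)) := by
      intro K hK h hh
      obtain ⟨I, hI⟩ := hyp2 K hK h hh
      rw [lim_SB hK hI h0]
      exact hI
    have hB1 : ∀ y, |∑ r ∈ R, B0 r y| ≤ R.card * (1 + |y|) := by
      intro y
      rw [abs_of_nonneg (Finset.sum_nonneg fun r _ => h0.B_nonneg r y)]
      have h3 : ∑ r ∈ R, B0 r y ≤ ∑ r ∈ R, (1 : ℝ) := Finset.sum_le_sum fun r _ => h0.B_le r y
      rw [Finset.sum_const, nsmul_eq_mul, mul_one] at h3
      nlinarith [mul_nonneg (Nat.cast_nonneg R.card : (0 : ℝ) ≤ R.card) (abs_nonneg y)]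
    have key := back hRH hκ hR (A2 := fun y => ∑ r ∈ R, B0 r y)
      (sum_mono fun r => h0.B_mono r).measurable
      (fun y hy => Finset.sum_eq_zero fun r _ => h0.B_neg r hy) hB1
      (Eventually.of_forall fun x _ => by
        have h3 : ∑ r ∈ R, B0 r x ≤ ∑ r ∈ R, (1 : ℝ) := Finset.sum_le_sum fun r _ => h0.B_le r x
        rwa [Finset.sum_const, nsmul_eq_mul, mul_one] at h3) hI hL
    have key2 : ∀ᵐ x : ℝ, 0 < x → ∑ r ∈ R, b r x = ∑ r ∈ R, b0 r x := by
      filter_upwards [key, h0.eq_ae] with x h1 h2 hx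
      rw [h1 hx]
      exact Finset.sum_congr rfl fun r _ => h2 hx r
    have h4 := eq_of_ae (sum_mono fun r => hL.b_mono r) key2 hs hcont
    show Tendsto (fun N => ∑ r ∈ R, Dr r N s) (g : Filter ℕ) (𝓝 (∑ r ∈ R, b0 r s))
    rw [← h4]
    exact tendsto_finsetSum _ fun r _ => hL.hb r s

/-- the distribution function of a density -/
noncomputable def Hp (p : ℝ → ℝ) (s : ℝ) : ℝ := ∫ x in Ioc 0 s, p x

section density

variable {p : ℝ → ℝ}

lemma Hp_mono (hp : ∀ x, 0 ≤ p x) (hi : IntegrableOn p (Ioi 0)) : Monotone (Hp p) := by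
  intro a b hab
  unfold Hp
  refine setIntegral_mono_set (hi.mono_set Ioc_subset_Ioi_self)
    (Eventually.of_forall fun x => hp x) ?_
  exact (Ioc_subset_Ioc_right hab).eventuallyLE

lemma Hp_nonneg (hp : ∀ x, 0 ≤ p x) (s : ℝ) : 0 ≤ Hp p s :=
  integral_nonneg fun x => hp x

lemma Hp_le (hp : ∀ x, 0 ≤ p x) (hi : IntegrableOn p (Ioi 0)) (s : ℝ) :
    Hp p s ≤ ∫ x in Ioi 0, p x := by
  unfold Hp
  exact setIntegral_mono_set hi (Eventually.of_forall fun x => hp x)
    Ioc_subset_Ioi_self.eventuallyLE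

lemma Hp_neg {s : ℝ} (hs : s < 0) : Hp p s = 0 := by
  unfold Hp
  rw [Ioc_eq_empty (by linarith), setIntegral_empty]

lemma Hp_cont (hi : IntegrableOn p (Ioi 0)) : Continuous (Hp p) := by
  have h1 : ∀ s, Hp p s = ∫ x in (0 : ℝ)..s, (Ioi (0 : ℝ)).indicator p x := by
    intro s
    unfold Hp
    rcases le_total 0 s with hs | hs
    · rw [intervalIntegral.integral_of_le hs]
      refine setIntegral_congr_fun measurableSet_Ioc fun x hx => ?_
      rw [indicator_of_mem (show x ∈ Ioi (0 : ℝ) from hx.1)]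
    · rw [Ioc_eq_empty (by linarith), setIntegral_empty, intervalIntegral.integral_of_ge hs]
      rw [setIntegral_eq_zero_of_forall_eq_zero, neg_zero]
      intro x hx
      rw [indicator_of_notMem (show x ∉ Ioi (0 : ℝ) from not_lt.2 hx.2)]
  have h2 : Integrable ((Ioi (0 : ℝ)).indicator p) := (integrable_indicator_iff measurableSet_Ioi).2 hi
  rw [show Hp p = fun s => ∫ x in (0 : ℝ)..s, (Ioi (0 : ℝ)).indicator p x from funext h1]
  exact intervalIntegral.continuous_primitive (fun a b => h2.intervalIntegrable) 0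

/-- integration by parts -/
lemma Hp_int (hp : ∀ x, 0 ≤ p x) (hi : IntegrableOn p (Ioi 0)) {K : ℝ → ℝ} (hK : TK κ K) {h : ℝ}
    (hh : 0 < h) : ∫ y, Hp p y * wv K h y = -∫ x in Ioi (0 : ℝ), fav K h x * p x := by
  have hw : Integrable (wv K h) := dfav_int hK h
  have e1 : ∀ y, Hp p y * wv K h y = ∫ x in Ioi (0 : ℝ), p x * (Ici x).indicator (wv K h) y := by
    intro y
    unfold Hp
    rw [← integral_mul_const]
    have e2 : ∀ x, p x * (Ici x).indicator (wv K h) y =
        (Iic y).indicator (fun x => p x * wv K h y) x := by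
      intro x
      by_cases hx : x ≤ y
      · rw [indicator_of_mem (show y ∈ Ici x from hx), indicator_of_mem (show x ∈ Iic y from hx)]
      · rw [indicator_of_notMem (show y ∉ Ici x from hx),
          indicator_of_notMem (show x ∉ Iic y from hx), mul_zero]
    simp_rw [e2]
    rw [setIntegral_indicator measurableSet_Iic]
    congr 1
  simp_rw [e1]
  have hint : Integrable (Function.uncurry fun y x : ℝ => p x * (Ici x).indicator (wv K h) y)
      (volume.prod (volume.restrict (Ioi (0 : ℝ)))) := by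
    have h1 : Integrable (fun z : ℝ × ℝ => wv K h z.1 * p z.2)
        (volume.prod (volume.restrict (Ioi (0 : ℝ)))) := hw.mul_prod hi
    have h2 : (Function.uncurry fun y x : ℝ => p x * (Ici x).indicator (wv K h) y) =
        {z : ℝ × ℝ | z.2 ≤ z.1}.indicator (fun z : ℝ × ℝ => wv K h z.1 * p z.2) := by
      funext z
      simp only [Function.uncurry]
      by_cases hz : z.2 ≤ z.1
      · rw [indicator_of_mem (show z.1 ∈ Ici z.2 from hz),
          indicator_of_mem (show z ∈ {z : ℝ × ℝ | z.2 ≤ z.1} from hz), mul_comm]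
      · rw [indicator_of_notMem (show z.1 ∉ Ici z.2 from hz),
          indicator_of_notMem (show z ∉ {z : ℝ × ℝ | z.2 ≤ z.1} from hz), mul_zero]
    rw [h2]
    exact h1.indicator (measurableSet_le measurable_snd measurable_fst)
  rw [integral_integral_swap hint, ← integral_neg]
  refine integral_congr_ae (Eventually.of_forall fun x => ?_)
  show ∫ y, p x * (Ici x).indicator (wv K h) y = -(fav K h x * p x)
  rw [integral_const_mul, integral_indicator measurableSet_Ici, integral_Ici_eq_integral_Ioi]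
  have := tail_int hK hh x
  unfold wv
  rw [this]
  ring


end density

end Q241.NN
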