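import Pool.Agent.Q241.NN.G

/-! # The equivalences for densities -/

set_option autoImplicit false

open MeasureTheory Filter Topology Set

namespace Q241.NN

open Pool.Agent.Y744 Pool.Agent.Y763.AH
open Pool.Agent.Y749.Rig (nT nT_pos ZZ mm mem_ZZ zs_im_pos one_lt_log)
open SG (ord NZ)

variable {κ : ℝ} {p : ℝ → ℝ}

lemma gd_ae : ∀ᵐ x : ℝ ∂(volume.restrict (Ioi (0 : ℝ))),
    gd x = 1 - (Real.sin (Real.pi * x) / (Real.pi * x)) ^ 2 := by
  rw [ae_restrict_iff' measurableSet_Ioi]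
  refine Eventually.of_forall fun x hx => ?_
  have hx0 : (0 : ℝ) < x := hx
  have hpi := Real.pi_pos
  unfold gd
  rw [Real.sinc_of_ne_zero (by positivity)]

lemma rhs_eq (hi : IntegrableOn p (Ioi 0)) {K : ℝ → ℝ} (hK : TK κ K) {h : ℝ} (hh : 0 < h) :
    ∫ x in Ioi (0 : ℝ), fav K h x * (1 - (Real.sin (Real.pi * x) / (Real.pi * x)) ^ 2 - p x) =
      (∫ y in Ioi (0 : ℝ), fav K h y * gd y) + -∫ x in Ioi (0 : ℝ), fav K h x * p x := by
  obtain ⟨D, hD0, hD⟩ := fav_decay hK hh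
  have hfc : Continuous (fav K h) := continuous_iff_continuousAt.2 fun y =>
    (fav_deriv hK h y).continuousAt
  have hfb : ∀ y, |fav K h y| ≤ D := fun y => (hD y).trans (div_le_self hD0 (by nlinarith [sq_nonneg y]))
  have h1 : Integrable fun y => fav K h y * gd y := by
    have h2 : Integrable fun y : ℝ => D * (1 + y ^ 2)⁻¹ := integrable_inv_one_add_sq.const_mul D
    refine h2.mono' (hfc.mul gd_cont).aestronglyMeasurable (Eventually.of_forall fun y => ?_)
    rw [Real.norm_eq_abs, abs_mul, abs_of_nonneg (gd_nonneg y)]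
    have h3 := gd_le y
    have h4 := gd_nonneg y
    calc |fav K h y| * gd y ≤ |fav K h y| * 1 := mul_le_mul_of_nonneg_left h3 (abs_nonneg _)
      _ ≤ D / (1 + y ^ 2) ^ 2 := by rw [mul_one]; exact hD y
      _ ≤ D * (1 + y ^ 2)⁻¹ := by
        rw [div_eq_mul_inv]
        refine mul_le_mul_of_nonneg_left ?_ hD0
        refine inv_anti₀ (by positivity) ?_
        nlinarith [sq_nonneg y]
  have h2 : IntegrableOn (fun y => fav K h y * p y) (Ioi 0) := by
    refine hi.bdd_mul (c := D) hfc.aestronglyMeasurable (Eventually.of_forall fun y => ?_)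
    rw [Real.norm_eq_abs]
    exact hfb y
  rw [← sub_eq_add_neg, ← integral_sub h1.integrableOn h2]
  refine integral_congr_ae ?_
  filter_upwards [gd_ae] with x hx
  rw [hx]
  ring

/-- **identification of the limit law by low frequencies** -/
theorem ident_iff (hRH : RiemannHypothesis) (hκ : 0 < κ) (hκ1 : κ < 1) {R : Finset ℕ}
    (hR : ∀ r ∈ R, 1 ≤ r) (hp : ∀ x, 0 ≤ p x) (hi : IntegrableOn p (Ioi 0))
    (hm : ∫ x in Ioi 0, p x ≤ R.card) :
    (∀ s : ℝ, 0 < s → Tendsto (fun N => ∑ r ∈ R, Dr r N s) atTop (𝓝 (Hp p s))) ↔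
      ∀ f, TF κ f → Tendsto (SFar R f) atTop (𝓝 (∫ x in Ioi (0 : ℝ),
        f x * (1 - (Real.sin (Real.pi * x) / (Real.pi * x)) ^ 2 - p x))) := by
  constructor
  · rintro hc f ⟨K, h, hK, hh, rfl⟩
    rw [rhs_eq hi hK hh, SFar_iff hRH hκ hκ1 hR hK hh]
    have h1 := fwd_int (Hp_mono hp hi) (fun s hs _ => hc s hs) hK h
    have h2 : ∀ y, (if y < 0 then 0 else Hp p y) = Hp p y := by
      intro y
      split_ifs with hy
      · rw [Hp_neg hy]
      · rfl
    simp_rw [h2] at h1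
    rwa [Hp_int hp hi hK hh] at h1
  · intro hyp s hs
    rw [tendsto_iff_ultrafilter]
    intro g hg
    obtain ⟨b, B, A', hL⟩ := exists_lims g (par_ord.mono hg)
    have hI : ∀ K, TK κ K → ∀ h, 0 < h → Tendsto (fun T => ∫ y, SB R T y * wv K h y) atTop
        (𝓝 (∫ y, Hp p y * wv K h y)) := by
      intro K hK h hh
      have h1 := hyp _ ⟨K, h, hK, hh, rfl⟩
      rw [rhs_eq hi hK hh, SFar_iff hRH hκ hκ1 hR hK hh] at h1
      rwa [Hp_int hp hi hK hh]
    have key := back hRH hκ hR (A2 := Hp p) (C2 := ∫ x in Ioi 0, p x)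
      (Hp_mono hp hi).measurable (fun y hy => Hp_neg hy) (fun y => by
        rw [abs_of_nonneg (Hp_nonneg hp y)]
        have h1 := Hp_le hp hi y
        have h2 : 0 ≤ ∫ x in Ioi 0, p x := (Hp_nonneg hp y).trans h1
        nlinarith [mul_nonneg h2 (abs_nonneg y)])
      (Eventually.of_forall fun x _ => (Hp_le hp hi x).trans hm) hI hL
    have h4 := eq_of_ae (sum_mono fun r => hL.b_mono r) key hs (Hp_cont hi).continuousAt
    show Tendsto (fun N => ∑ r ∈ R, Dr r N s) (g : Filter ℕ) (𝓝 (Hp p s))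
    rw [← h4]
    exact tendsto_finsetSum _ fun r _ => hL.hb r s

open Classical in
/-- the proportion of the spacings in `(a, b]` -/
noncomputable def Dab (r N : ℕ) (a b : ℝ) : ℝ :=
  (((Finset.Ioc 0 N).filter (fun n => a < dl r n ∧ dl r n ≤ b)).card : ℝ) / N

lemma Dab_eq {a b : ℝ} (hab : a ≤ b) (r N : ℕ) : Dab r N a b = Dr r N b - Dr r N a := by
  classical
  unfold Dab Dr
  rw [← sub_div]
  congr 1
  rw [eq_sub_iff_add_eq, ← Nat.cast_add, ← Finset.card_union_of_disjoint]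
  · congr 2
    ext n
    simp only [Finset.mem_union, Finset.mem_filter]
    constructor
    · rintro (⟨h1, h2, h3⟩ | ⟨h1, h2⟩)
      · exact ⟨h1, h3⟩
      · exact ⟨h1, h2.trans hab⟩
    · rintro ⟨h1, h2⟩
      by_cases h3 : dl r n ≤ a
      · exact Or.inr ⟨h1, h3⟩
      · exact Or.inl ⟨h1, not_le.1 h3, h2⟩
  · rw [Finset.disjoint_left]
    intro n h1 h2
    rw [Finset.mem_filter] at h1 h2
    linarith [h1.2.1, h2.2]

lemma int_Hp (hi : IntegrableOn p (Ioi 0)) {a b : ℝ} (ha : 0 ≤ a) (hab : a ≤ b) :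
    ∫ x in a..b, p x = Hp p b - Hp p a := by
  unfold Hp
  rw [← intervalIntegral.integral_of_le (ha.trans hab), ← intervalIntegral.integral_of_le ha]
  have h1 : ∀ c d : ℝ, 0 ≤ c → c ≤ d → IntervalIntegrable p volume c d := by
    intro c d hc hcd
    rw [intervalIntegrable_iff_integrableOn_Ioc_of_le hcd]
    exact hi.mono_set fun x hx => lt_of_le_of_lt hc hx.1
  rw [intervalIntegral.integral_interval_sub_left (h1 0 b le_rfl (ha.trans hab))
    (h1 0 a le_rfl ha)]

/-- the two forms of the limit law -/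
theorem Q_iff {R : Finset ℕ} (hi : IntegrableOn p (Ioi 0))
    (hm : ∫ x in Ioi 0, p x = R.card) :
    (∀ a b : ℝ, 0 ≤ a → a < b →
      Tendsto (fun N => ∑ r ∈ R, Dab r N a b) atTop (𝓝 (∫ x in a..b, p x))) ↔
    (∀ s : ℝ, 0 < s → Tendsto (fun N => ∑ r ∈ R, Dr r N s) atTop (𝓝 (Hp p s))) := by
  have hsum : ∀ {a b : ℝ}, a ≤ b → ∀ N, ∑ r ∈ R, Dab r N a b =
      ∑ r ∈ R, Dr r N b - ∑ r ∈ R, Dr r N a := by
    intro a b hab N
    rw [← Finset.sum_sub_distrib]
    exact Finset.sum_congr rfl fun r _ => Dab_eq hab r N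
  have h0 : ∀ N, 0 ≤ ∑ r ∈ R, Dr r N 0 := fun N => Finset.sum_nonneg fun r _ => Dr_nonneg r N 0
  have hHp0 : Hp p 0 = 0 := by unfold Hp; simp
  constructor
  · intro h
    have hlim0 : Tendsto (fun N => ∑ r ∈ R, Dr r N 0) atTop (𝓝 0) := by
      rw [Metric.tendsto_atTop]
      intro ε hε
      have h1 : Tendsto (fun s : ℝ => Hp p s) atTop (𝓝 (∫ x in Ioi 0, p x)) := by
        have := intervalIntegral_tendsto_integral_Ioi (μ := volume) (f := p) 0 hi tendsto_id
        refine this.congr' ?_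
        filter_upwards [eventually_ge_atTop 0] with s hs
        unfold Hp
        rw [← intervalIntegral.integral_of_le hs]
        rfl
      rw [hm] at h1
      obtain ⟨s, hs1, hs2⟩ := (((tendsto_order.1 h1).1 (R.card - ε / 2) (by linarith)).and
        (eventually_gt_atTop 0)).exists
      have h2 := h 0 s le_rfl hs2
      rw [int_Hp hi le_rfl hs2.le, hHp0, sub_zero] at h2
      obtain ⟨N0, hN0⟩ := eventually_atTop.1 ((tendsto_order.1 h2).1 (R.card - ε / 2) hs1)
      refine ⟨N0, fun N hN => ?_⟩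
      have h3 := hN0 N hN
      rw [hsum hs2.le] at h3
      have h4 : ∑ r ∈ R, Dr r N s ≤ ∑ r ∈ R, (1 : ℝ) := Finset.sum_le_sum fun r _ => Dr_le r N s
      rw [Finset.sum_const, nsmul_eq_mul, mul_one] at h4
      rw [Real.dist_eq, sub_zero, abs_of_nonneg (h0 N)]
      linarith
    intro s hs
    have h1 := (h 0 s le_rfl hs).add hlim0
    rw [int_Hp hi le_rfl hs.le, hHp0, sub_zero, add_zero] at h1
    refine h1.congr fun N => ?_
    rw [hsum hs.le]
    ring
  · intro h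
    have hlim0 : Tendsto (fun N => ∑ r ∈ R, Dr r N 0) atTop (𝓝 0) := by
      rw [Metric.tendsto_atTop]
      intro ε hε
      have h1 : Tendsto (Hp p) (𝓝[>] 0) (𝓝 0) := by
        have := ((Hp_cont hi).tendsto 0).mono_left (nhdsWithin_le_nhds (s := Ioi 0))
        rwa [hHp0] at this
      obtain ⟨s, hs1, hs2⟩ := (((tendsto_order.1 h1).2 ε hε).and self_mem_nhdsWithin).exists
      have hs2' : (0 : ℝ) < s := hs2
      obtain ⟨N0, hN0⟩ := eventually_atTop.1 ((tendsto_order.1 (h s hs2')).2 ε hs1)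
      refine ⟨N0, fun N hN => ?_⟩
      have h3 := hN0 N hN
      have h4 : ∑ r ∈ R, Dr r N 0 ≤ ∑ r ∈ R, Dr r N s :=
        Finset.sum_le_sum fun r _ => Dr_mono r N hs2'.le
      rw [Real.dist_eq, sub_zero, abs_of_nonneg (h0 N)]
      linarith
    intro a b ha hab
    have hb := h b (ha.trans_lt hab)
    have ha' : Tendsto (fun N => ∑ r ∈ R, Dr r N a) atTop (𝓝 (Hp p a)) := by
      rcases ha.eq_or_lt with rfl | ha0
      · rw [hHp0]
        exact hlim0
      · exact h a ha0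
    rw [int_Hp hi ha hab.le]
    refine (hb.sub ha').congr fun N => ?_
    rw [hsum hab.le]

/-- **main equivalence** -/
theorem main1 (hRH : RiemannHypothesis) (hκ : 0 < κ) (hκ1 : κ < 1) {R : Finset ℕ}
    (hR : ∀ r ∈ R, 1 ≤ r) (hp : ∀ x, 0 ≤ p x) (hi : IntegrableOn p (Ioi 0))
    (hm : ∫ x in Ioi 0, p x = R.card) :
    (∀ a b : ℝ, 0 ≤ a → a < b →
      Tendsto (fun N => ∑ r ∈ R, Dab r N a b) atTop (𝓝 (∫ x in a..b, p x))) ↔
      ∀ f, TF κ f → Tendsto (SFar R f) atTop (𝓝 (∫ x in Ioi (0 : ℝ),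
        f x * (1 - (Real.sin (Real.pi * x) / (Real.pi * x)) ^ 2 - p x))) :=
  (Q_iff hi hm).trans (ident_iff hRH hκ hκ1 hR hp hi hm.le)

end Q241.NN
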